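import Pool.Agent.Helper3.UF.Su
import Pool.Agent.Helper3.SG.Spd

/-! Optimal forms over a partition: the gradients are at least those of the cells of the window; the forms are bounded
on the whole window of the line. -/

set_option autoImplicit false

namespace Pool.Agent.Helper3.UF

open Finset Filter Topology Matrix Pool.Agent.Helper69.RK Pool.Agent.Helper31.EC Pool.Agent.Helper40.EL
open Pool.Agent.Helper31.EC.Sp
open Pool.Agent.Helper95.LF Pool.Agent.Helper3.LF Pool.Agent.Helper48.NS Pool.Agent.Helper89.LX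
open Pool.Agent.Helper3.PR
open Pool.Agent.Helper3.SG (Fac win_phi')
open Pool.Agent.Helper3.ZM (aff afs afm phi_afm gam_afm afm_symm afm_nonneg GG_gain Jf_afm Jf_ge_self celW celL)
open Pool.Agent.Helper59.LF (ladd fadd DM_ladd)

noncomputable section

variable {R : Sp} {m r D : ℕ}

/-- the gradient matrix of the identity form of the zoom -/
theorem Jf_zoom (hD : 1 ≤ D) (d δ : ℝ) (o : Fin (m + 1) → ℝ) (p : Fin (m + 1) → ℝ) (v : Fin m → ℝ) :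
    δ⁻¹ ^ 2 * (v ⬝ᵥ v) ≤ v ⬝ᵥ (Jf d ((1 : Matrix (Mon (m + 1) D) (Mon (m + 1) D) ℝ) + afm o δ⁻¹ 1) p *ᵥ v) := by
  have h1 : v ⬝ᵥ (Jf d (afm o δ⁻¹ (1 : Matrix (Mon (m + 1) D) (Mon (m + 1) D) ℝ)) p *ᵥ v) ≤
      v ⬝ᵥ (Jf d ((1 : Matrix (Mon (m + 1) D) (Mon (m + 1) D) ℝ) + afm o δ⁻¹ 1) p *ᵥ v) := by
    apply Jf_mono d
    intro x
    rw [dv_add, Matrix.one_mulVec]
    have := dot_self_nonneg x
    linarith
  refine le_trans ?_ h1
  rw [Jf_afm, dv_smul]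
  have h2 := Jf_ge_self hD (δ⁻¹ * d) (B := (1 : Matrix (Mon (m + 1) D) (Mon (m + 1) D) ℝ))
    (fun x => by rw [Matrix.one_mulVec]) (aff o δ⁻¹ p) v
  exact mul_le_mul_of_nonneg_left h2 (by positivity)

section

variable {g : Sys R r} {s : Sys R m} {W : ∀ k, Setoid (R.F k).Ω} {c : ℝ} {x : ∀ k, FD (R.F k) (Mon (m + 1) D)}
  (hx : OpW g s W D c x) (hF : Fac g s) (h0 : 0 ≤ c) (h1 : c < 1)
  (hW0 : 1 - c ≤ h (up1 (idl W) g.T) (up1 (idl W) (lA g c)))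

include hx hF h0 h1 hW0 in
/-- the gradients in the space directions are at least `2^(c n)` in all directions -/
theorem OpW.cell (hD : 1 ≤ D) (e : ℝ) (he : 0 < e) : Tendsto (fun k => (x k).l.T.pb (fun ω =>
    ¬ ∀ v : Fin m → ℝ, 2 ^ ((2 * c - e) * (R.F k).n) * (v ⬝ᵥ v) ≤
      v ⬝ᵥ (Jf (R.dl 1 k) ((x k).g ω) (ptf s k ((x k).l.p.π ω)) *ᵥ v))) UF (𝓝 0) := by
  set Z := opZ hx hF h0 h1 hW0 with hZ
  have hopt : (gau s D).Opt (WA W (rp (lA g c))) (WA W (rp (lB g))) (rfx x (celW s c h0 (lb x))) :=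
    rfx_opt hx.opt' _ (celL_leak hF h0 h1.le (Gau.Ad.dm _ hx.opt'.1))
  set y : ∀ k, FD (Z.sp.F k) (Mon (m + 1) D) := fun k => trivFD (Z.sp.F k) with hy
  have hyA : (gau Z.sys D).Ad (cA Z.sys 0) (cB Z.sys) y := (gau Z.sys D).triv_Ad _ _
  have hw := Z.zfm_ad hyA (opZ_cl hx hF h0 h1 hW0 _ (Gau.Ad.dm _ hyA))
  have hd1 := dom_ext hopt hw (fun k => (Z.l k).cq Z.e Z.e_pos (lb y k)) (fun _ _ _ => rfl)
    (fun k ω ω' g => g.1) e he
  have hd2 := Z.zfm_typ hyA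
  have h5 := hd1.add hd2
  rw [add_zero] at h5
  refine squeeze_zero (fun k => FSp.pb_nonneg _ _) (fun k => ?_) h5
  refine le_trans (FSp.pb_mono _ ?_) (pb_or ((x k).l.T) (fun ω => ¬ ∀ v, qf (cutm ((gau s D).cp k)
      (1 + afm (Z.oi k ω) (R.dl Z.c k)⁻¹ 1)) v ≤ 2 ^ (e * (R.F k).n) * qf ((x k).g ω) v)
      (fun ω => ¬ Cpd ((gau s D).cp k) (1 + afm (Z.oi k ω) (R.dl Z.c k)⁻¹
        (1 : Matrix (Mon (m + 1) D) (Mon (m + 1) D) ℝ))))
  intro ω _ h6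
  by_contra h7
  rw [not_or, not_not, not_not] at h7
  apply h6
  intro v
  have hdom := h7.1
  have e0 : cutm ((gau s D).cp k) (1 + afm (Z.oi k ω) (R.dl Z.c k)⁻¹
      (1 : Matrix (Mon (m + 1) D) (Mon (m + 1) D) ℝ)) = 1 + afm (Z.oi k ω) (R.dl Z.c k)⁻¹ 1 := by
    unfold cutm
    rw [if_pos h7.2]
  rw [e0] at hdom
  have a1 := Jf_zoom hD (R.dl 1 k) (R.dl Z.c k) (Z.oi k ω) (ptf s k ((x k).l.p.π ω)) v
  have a2 : v ⬝ᵥ (Jf (R.dl 1 k) (1 + afm (Z.oi k ω) (R.dl Z.c k)⁻¹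
      (1 : Matrix (Mon (m + 1) D) (Mon (m + 1) D) ℝ)) (ptf s k ((x k).l.p.π ω)) *ᵥ v) ≤
      2 ^ (e * (R.F k).n) * (v ⬝ᵥ (Jf (R.dl 1 k) ((x k).g ω) (ptf s k ((x k).l.p.π ω)) *ᵥ v)) := by
    rw [Jf_qf, Jf_qf, Finset.mul_sum]
    exact Finset.sum_le_sum fun j _ => hdom _
  have a3 : (R.dl Z.c k)⁻¹ ^ 2 = 2 ^ (2 * c * (R.F k).n) := by
    have hc : Z.c = c := rfl
    rw [hc]
    unfold Sp.dl
    rw [← Real.rpow_neg (by norm_num), ← Real.rpow_natCast, ← Real.rpow_mul (by norm_num)]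
    congr 1
    push_cast
    ring
  rw [a3] at a1
  have a4 := a1.trans a2
  have a5 : (2 : ℝ) ^ (2 * c * (R.F k).n) = 2 ^ (e * (R.F k).n) * 2 ^ ((2 * c - e) * (R.F k).n) := by
    rw [← Real.rpow_add (by norm_num)]
    congr 1
    ring
  rw [a5, mul_assoc] at a4
  exact le_of_mul_le_mul_left a4 (by positivity)

/-- entropy of the height given the label and the line, as the entropy over the whole window -/
theorem win_ent_T (s : Sys R m) {c : ℝ} (l : Lab R) (hT : 1 - c ≤ h (up1 l s.T) (up1 l (lA s c))) :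
    1 - c ≤ ul (l.sp.rt (fun k => Setoid.ker ((l.pj.vv s.t).cellv 1 k)) (wB s c l)) := by
  have e1 : s.T = Sp.cl (s.It 1) := (s.cl_It 1).symm
  have e2 : h (up1 l s.T) (up1 l (lA s c)) =
      ul ((l.ovr 1 one_pos).rt (l.upI 1 one_pos (s.It 1)).1
        (l.upI 1 one_pos (Inf.sup (Inf.sup (s.Ia 1) (s.Ix 1)) (s.It c))).1) := by
    rw [← cl_A, e1]
    show h (l.upL 1 one_pos (Sp.cl (s.It 1)))
      (l.upL 1 one_pos (Sp.cl (Inf.sup (Inf.sup (s.Ia 1) (s.Ix 1)) (s.It c)))) = _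
    rw [l.upL_cl, l.upL_cl, Sp.h_cl]
  rw [e2] at hT
  refine hT.trans (le_of_eq ?_)
  congr 1
  funext k
  unfold Sp.rt
  have hn : ((l.ovr 1 one_pos).F k).n = (l.sp.F k).n := by
    have h1 : ((l.ovr 1 one_pos).F k).n = 1 * (l.sp.F k).n := rfl
    rw [h1, one_mul]
  rw [hn]
  congr 1
  have e3 := cellv_pj l s.t 1 k
  have e4 : (l.sp.F k).e ((fun k => Setoid.ker ((l.pj.vv s.t).cellv 1 k)) k) (wB s c l k ⊓ (l.sp.F k).Z) =
      (l k).T.e (Setoid.comap (l k).p.π (Setoid.ker (s.t.cellv 1 k))) (wB s c l k ⊓ (l k).T.Z) :=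
    congrArg (fun X => (l k).T.e X (wB s c l k ⊓ (l k).T.Z)) e3
  refine Eq.trans ?_ e4.symm
  apply (l k).T.e_congr_right
  intro ω ω' _ _
  constructor
  · intro h
    exact ⟨⟨h.2.1, h.1⟩, h.2.2⟩
  · intro h
    exact ⟨h.1.2, h.1.1, h.2⟩

include hx hF hW0 in
theorem OpW.hT : 1 - c ≤ h (up1 (lb x) s.T) (up1 (lb x) (lA s c)) := by
  have h2 := h_over hx.lt (Gau.Ad.dm _ hx.opt'.1).1 g.T
  have h3 : h (up1 (lb x) g.T) (up1 (lb x) (lA g c)) ≤ h (up1 (lb x) s.T) (up1 (lb x) (lA s c)) := by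
    rw [← hF.T]
    exact h_anti (up1_mono _ (hF.A c))
  exact (hW0.trans h2).trans h3

include hx hF h0 h1 hW0 in
/-- the form is bounded on the whole window of the line -/
theorem OpW.win (b : ℝ) (hb : 0 ≤ b) (L : ℕ → ℝ) (hL : R.Sub L) :
    ∃ K' : ℕ → ℝ, R.Sub K' ∧ Sp.Typ (S := (lb x).sp) (fun k (ω : (x k).l.T.Ω) =>
      ∀ τ, |τ - s.t.v k ((x k).l.p.π ω) 0| ≤ L k * R.dl (c - b) k →
      phi (R.dl 1 k) ((x k).g ω) (pl (s.a.v k ((x k).l.p.π ω)) (s.x.v k ((x k).l.p.π ω)) τ) ≤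
        K' k * 2 ^ ((2 * D : ℕ) * b * (R.F k).n) * sph s D k ((x k).l.p.π ω) ((x k).g ω)) := by
  refine win_phi' h0 h1 (l := lb x) (win_ent_T s (lb x) (hx.hT hF hW0)) (fun k => (x k).g) ?_ ?_ b hb L hL
  · filter_upwards [hx.opt.1 1 one_pos] with k hk ω hω using (hk.2.2.1 ω hω).1.pdM
  · exact Eventually.of_forall fun k ω ω' a b c d => ((x k).meas ω ω' a b c d).1

end

end

end Pool.Agent.Helper3.UF
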