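import Pool.Agent.Helper3.SG.Frm

/-! Optimal forms dominate admissible forms whose labels are finer; labels with forms with finer partitions. -/

set_option autoImplicit false

namespace Pool.Agent.Helper3.UF

open Finset Filter Topology Matrix Pool.Agent.Helper69.RK Pool.Agent.Helper31.EC Pool.Agent.Helper40.EL
open Pool.Agent.Helper31.EC.Sp
open Pool.Agent.Helper95.LF Pool.Agent.Helper3.LF Pool.Agent.Helper48.NS Pool.Agent.Helper89.LX
open Pool.Agent.Helper3.PR
open Pool.Agent.Helper59.LF (ladd fadd DM_ladd)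

noncomputable section

variable {R : Sp} {ι : Type} [Fintype ι] [DecidableEq ι] {Φ : Gau R ι} {A B : Part R}

/-- two labels with forms, over a common label which maps to the first one -/
def upx (x : ∀ k, FD (R.F k) ι) (z : ∀ k, FD (R.F k) ι) (q : ∀ k, FPj (z k).l.T (x k).l.T)
    (hV : ∀ k ω ω', (z k).l.V ω ω' → (x k).l.V ((q k).π ω) ((q k).π ω')) (k : ℕ) : FD (R.F k) ι where
  l := (z k).l
  g := fun ω => (x k).g ((q k).π ω)
  g' := (z k).g
  meas := fun ω ω' a b c d =>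
    ⟨((x k).meas _ _ ((q k).supp ω a) ((q k).supp ω' b) (hV k ω ω' c) (((q k).hZ ω ω' a b).mp d)).1,
      ((z k).meas ω ω' a b c d).1⟩

/-- an optimal form dominates every admissible form of a label which maps to its label -/
theorem dom_ext {x : ∀ k, FD (R.F k) ι} (hx : Φ.Opt A B x) {z : ∀ k, FD (R.F k) ι} (hz : Φ.Ad A B z)
    (q : ∀ k, FPj (z k).l.T (x k).l.T)
    (hq : ∀ k ω, (z k).l.T.μ ω ≠ 0 → (x k).l.p.π ((q k).π ω) = (z k).l.p.π ω)
    (hV : ∀ k ω ω', (z k).l.V ω ω' → (x k).l.V ((q k).π ω) ((q k).π ω')) (e : ℝ) (he : 0 < e) :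
    Tendsto (fun k => (z k).l.T.pb (fun ω => ¬ ∀ v, qf ((z k).g ω) v ≤
      2 ^ (e * (R.F k).n) * qf ((x k).g ((q k).π ω)) v)) UF (𝓝 0) := by
  have hA : Φ.Ad A B (upx x z q hV) := by
    intro η hη
    filter_upwards [hx.1 η hη, hz η hη] with k a b
    refine ⟨b.1, b.2.1, fun ω hω => ⟨(a.2.2.1 _ ((q k).supp ω hω)).1, (b.2.2.1 ω hω).1⟩, ?_, b.2.2.2.1⟩
    have h1 := pb_push (q k) (fun ω => ¬ Φ.φ k ((x k).l.p.π ω) ((x k).g ω) ≤ 2 ^ (η * (R.F k).n))
    refine le_trans (FSp.pb_mono _ ?_) (h1.le.trans a.2.2.2.1)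
    intro ω hω h2 h3
    apply h2
    rw [hq k ω hω] at h3
    exact h3
  have h2 := Φ.opt_near hA (fun y hy => by
    have h1 : (fun k => (upx x z q hV k).sc / (R.F k).n) = fun k => (x k).sc / (R.F k).n := by
      funext k
      congr 1
      exact sum_push (q k) (fun ω => Real.logb 2 ((x k).g ω).det)
    rw [h1]
    exact hx.2 y hy) e he
  exact h2

/-- the label of a sequence of labels with forms, with a finer partition -/
def rfx (x : ∀ k, FD (R.F k) ι) (W : ∀ k, Setoid (x k).l.T.Ω) (k : ℕ) : FD (R.F k) ι where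
  l := fadd (x k).l (W k)
  g := (x k).g
  g' := (x k).g'
  meas := fun ω ω' a b c d => (x k).meas ω ω' a b c.1 d

theorem rfx_ad {x : ∀ k, FD (R.F k) ι} (hx : Φ.Ad A B x) (W : ∀ k, Setoid (x k).l.T.Ω)
    (h : Lab.DM (fun k => fadd (x k).l (W k)) A B) : Φ.Ad A B (rfx x W) := by
  intro η hη
  filter_upwards [hx η hη, h.1.eventually (gt_mem_nhds hη), h.2.eventually (gt_mem_nhds hη)] with k a b c
  have hn := (R.F k).pos
  rw [div_lt_iff₀ hn] at b c
  exact ⟨b.le, c.le, a.2.2.1, a.2.2.2.1, a.2.2.2.2⟩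

theorem rfx_opt {x : ∀ k, FD (R.F k) ι} (hx : Φ.Opt A B x) (W : ∀ k, Setoid (x k).l.T.Ω)
    (h : Lab.DM (fun k => fadd (x k).l (W k)) A B) : Φ.Opt A B (rfx x W) :=
  ⟨rfx_ad hx.1 W h, hx.2⟩

/-- optimality for another pair of informations with the same admissible sequences -/
theorem Opt_of_PLe {A' B' : Part R} {x : ∀ k, FD (R.F k) ι} (hx : Φ.Opt A B x) (h1 : PLe A A') (h1' : PLe A' A)
    (h2 : PLe B B') (h2' : PLe B' B) : Φ.Opt A' B' x := by
  constructor
  · exact SG.Ad_of_DM hx.1 (Lab.DM.mono (Gau.Ad.dm Φ hx.1) h1 h2)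
  · intro y hy
    exact hx.2 y (SG.Ad_of_DM hy (Lab.DM.mono (Gau.Ad.dm Φ hy) h1' h2'))

end

end Pool.Agent.Helper3.UF
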