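import Pool.Agent.Helper3.UF.Frm
import Pool.Agent.Helper59.EV.FdgS

/-! The averages of the logarithm of the volume determinant of an optimal form over all events of all extensions of
its label are at least the logarithmic volumes of the restricted zooms. -/

set_option autoImplicit false

namespace Pool.Agent.Helper3.UF

open Finset Filter Topology Matrix Pool.Agent.Helper69.RK Pool.Agent.Helper31.EC Pool.Agent.Helper40.EL
open Pool.Agent.Helper31.EC.Sp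
open Pool.Agent.Helper95.LF Pool.Agent.Helper3.LF Pool.Agent.Helper48.NS Pool.Agent.Helper89.LX
open Pool.Agent.Helper3.PR
open Pool.Agent.Helper3.ZM (aff afs afm phi_afm gam_afm afm_symm afm_nonneg GG_gain VV_ext cellv_pj' triv_DM h_kap)
open Pool.Agent.Helper59.EV (gluFD gluS Ad_glu Ad_glu_triv pb_glu)

noncomputable section

variable {S : Sp} {m D : ℕ}

/-- probabilities of bad events of the first of two glued sequences -/
theorem glu_tend {T R : Sp} {ι : Type} [Fintype ι] [DecidableEq ι] (p : Pj T R) (E : ∀ k, (T.F k).Ω → Prop)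
    (hE : 0 < ul (T.pr E)) (y1 : ∀ k, FD ((Sp.im p E).F k) ι) (y2 : ∀ k, FD ((Sp.im p fun k ω => ¬ E k ω).F k) ι)
    (Q : ∀ k, (R.F k).Ω → Matrix ι ι ℝ → Prop)
    (h : Tendsto (fun k => (gluS p E y1 y2 k).l.T.pb
      (fun w => Q k ((gluS p E y1 y2 k).l.p.π w) ((gluS p E y1 y2 k).g w))) UF (𝓝 0)) :
    Tendsto (fun k => (y1 k).l.T.pb (fun w => Q k ((y1 k).l.p.π w) ((y1 k).g w))) UF (𝓝 0) := by
  set P := ul (T.pr E) with hP
  have h1 := h.const_mul (2 / P)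
  rw [mul_zero] at h1
  refine squeeze_zero' (Eventually.of_forall fun k => FSp.pb_nonneg _ _) ?_ h1
  filter_upwards [pr_half' hE] with k hk
  have h2 : (gluS p E y1 y2 k).l.T.pb (fun w => Q k ((gluS p E y1 y2 k).l.p.π w) ((gluS p E y1 y2 k).g w)) =
      (T.F k).pb (E k) * (y1 k).l.T.pb (fun w => Q k ((y1 k).l.p.π w) ((y1 k).g w)) +
      (1 - (T.F k).pb (E k)) * (y2 k).l.T.pb (fun w => Q k ((y2 k).l.p.π w) ((y2 k).g w)) :=
    pb_glu (p := p.fp k) (E := E k) (Q k) (y1 k) (y2 k)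
  have h3 : (0 : ℝ) ≤ (y1 k).l.T.pb (fun w => Q k ((y1 k).l.p.π w) ((y1 k).g w)) := FSp.pb_nonneg _ _
  have h4 : (0 : ℝ) ≤ (1 - (T.F k).pb (E k)) * (y2 k).l.T.pb (fun w => Q k ((y2 k).l.p.π w) ((y2 k).g w)) :=
    mul_nonneg (sub_nonneg.mpr ((T.F k).pb_le_one _)) (FSp.pb_nonneg _ _)
  have h5 : P / 2 ≤ (T.F k).pb (E k) := hk
  rw [h2]
  have h6 := mul_le_mul_of_nonneg_right h5 h3
  have h7 : (y1 k).l.T.pb (fun w => Q k ((y1 k).l.p.π w) ((y1 k).g w)) =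
      2 / P * (P / 2 * (y1 k).l.T.pb (fun w => Q k ((y1 k).l.p.π w) ((y1 k).g w))) := by
    have : P ≠ 0 := hE.ne'
    field_simp
  refine h7.le.trans (mul_le_mul_of_nonneg_left ?_ (by positivity))
  linarith

/-- averages -/
def avg (R : Sp) (v : ∀ k, (R.F k).Ω → ℝ) (k : ℕ) : ℝ := ∑ ω, (R.F k).μ ω * v k ω

theorem avg_UB {R : Sp} {v : ∀ k, (R.F k).Ω → ℝ} {C : ℝ}
    (h : ∀ᶠ k in UF, ∀ ω, (R.F k).μ ω ≠ 0 → 0 ≤ v k ω ∧ v k ω ≤ C * (R.F k).n) :
    UB (fun k => avg R v k / (R.F k).n) := by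
  refine UB_of_nonneg_le (C := C) ?_ ?_
  · filter_upwards [h] with k h1
    apply div_nonneg _ (R.F k).pos.le
    apply Finset.sum_nonneg
    intro ω _
    by_cases h0 : (R.F k).μ ω = 0
    · rw [h0, zero_mul]
    · exact mul_nonneg ((R.F k).nn ω) (h1 ω h0).1
  · filter_upwards [h] with k h1
    rw [div_le_iff₀ (R.F k).pos]
    apply sum_mul_le
    intro ω hω
    exact (h1 ω hω).2

/-- the logarithm of the volume determinant of a form -/
def vx (s : Sys S m) (k : ℕ) (M : Matrix (Mon (m + 1) D) (Mon (m + 1) D) ℝ) (ω : (S.F k).Ω) : ℝ :=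
  Real.logb 2 (GG (S.dl 1 k) M (ptf s k ω))

theorem log_est (m : ℕ) {G1 G2 d X : ℝ} (h1 : 0 < G1) (h2 : 0 < G2) (hd : 0 < d) (hX : 0 < X)
    (h : G1 ≤ (2 * d ^ 2) ^ m * (X ^ m * G2)) :
    Real.logb 2 G1 ≤ m * (1 + 2 * Real.logb 2 d) + (m * Real.logb 2 X + Real.logb 2 G2) := by
  have a6 := Real.logb_le_logb_of_le (b := 2) (by norm_num) h1 h
  have hXm : 0 < X ^ m := by positivity
  have hdm : 0 < (2 * d ^ 2) ^ m := by positivity
  rw [Real.logb_mul hdm.ne' (mul_pos hXm h2).ne', Real.logb_pow,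
    Real.logb_mul (by norm_num) (by positivity), Real.logb_self_eq_one (by norm_num), Real.logb_pow,
    Real.logb_mul hXm.ne' h2.ne', Real.logb_pow] at a6
  push_cast at a6
  exact a6

theorem fin_est (m : ℕ) {C e c ε n L A PB : ℝ} (he : 0 < e) (hc : 0 ≤ c) (hε : 0 ≤ ε) (hn : 0 < n)
    (hnm : (m : ℝ) ≤ n) (hPB : 0 ≤ PB)
    (h : L ≤ A - (2 * m * c * n - m - m * ε * n) + (C * (e * n) + |2 * m * c * n - m - m * ε * n|) * PB) :
    e * (L / (e * n)) ≤ A / n - (2 * m * c - m * ε) + m / n + (C * e + (2 * m * c + 1 + m * ε)) * PB := by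
  have habs : |2 * m * c * n - m - m * ε * n| ≤ (2 * m * c + 1 + m * ε) * n := by
    have hm : (0 : ℝ) ≤ m := Nat.cast_nonneg m
    have hmc : 0 ≤ 2 * m * c * n := by positivity
    have hme : 0 ≤ m * ε * n := by positivity
    rw [abs_le]
    constructor <;> nlinarith
  have h6 : (C * (e * n) + |2 * m * c * n - m - m * ε * n|) * PB ≤
      ((C * e + (2 * m * c + 1 + m * ε)) * PB) * n := by
    have := mul_le_mul_of_nonneg_right habs hPB
    nlinarith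
  have h7 : e * (L / (e * n)) = L / n := by field_simp
  rw [h7, div_le_iff₀ hn]
  have h8 : (A / n - (2 * m * c - m * ε) + m / n + (C * e + (2 * m * c + 1 + m * ε)) * PB) * n =
      A - 2 * m * c * n + m * ε * n + m + ((C * e + (2 * m * c + 1 + m * ε)) * PB) * n := by
    field_simp
    ring
  rw [h8]
  linarith

section

variable {s : Sys S m} (Z : ZT s) (g g' : ∀ k, (Z.l k).T.Ω → Matrix (Mon (m + 1) D) (Mon (m + 1) D) ℝ)
  (meas : ∀ k ω ω', (Z.l k).T.μ ω ≠ 0 → (Z.l k).T.μ ω' ≠ 0 → (Z.l k).V ω ω' → (Z.l k).T.Z ω ω' →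
    g k ω = g k ω' ∧ g' k ω = g' k ω')

/-- forms on the label of a zoom -/
def xz (k : ℕ) : FD (S.F k) (Mon (m + 1) D) := ⟨Z.l k, g k, g' k, meas k⟩

/-- THE VOLUME ON EVENTS -/
theorem ev_lvol (hD : 1 ≤ D) {A B : Part S} (hx : (gau s D).Opt A B (xz Z g g' meas))
    (hc : ∀ y : Lab Z.sp, DMc Z.sys 0 y → (Z.cl y).DM A B)
    {T : Sp} (r : Pj T Z.sp) (E : ∀ k, (T.F k).Ω → Prop) (hE : 0 < ul (T.pr E)) :
    2 * m * Z.c + Z.e * lvol (Z.sys.im r E hE) D 0 ≤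
      ul (fun k => avg (Sp.im r E) (fun k ω => vx s k (g k ω) ((Z.l k).p.π ω)) k / (S.F k).n) := by
  obtain ⟨y, hy⟩ := exists_can (Z.sys.im r E hE) D 0
  have hyA : (gau (Z.sys.im r E hE) D).Ad ((cA Z.sys 0).im r E) ((cB Z.sys).im r E) y := hy.1.1
  obtain ⟨y2, hyG⟩ : ∃ y2 : ∀ k, FD ((Sp.im r fun k ω => ¬ E k ω).F k) (Mon (m + 1) D),
      (gau Z.sys D).Ad (cA Z.sys 0) (cB Z.sys) (gluS r E y y2) := by
    rcases typ_or E with ht | hE'
    · exact ⟨_, Ad_glu_triv Z.sys hE ht hyA⟩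
    · exact ⟨_, Ad_glu Z.sys hE hE' hyA ((gau (Z.sys.im r (fun k ω => ¬ E k ω) hE') D).triv_Ad _ _)⟩
  rw [← lvol_eq (Z.sys.im r E hE) hy.1]
  have hw := Z.zfm_ad hyG (hc _ (Gau.Ad.dm _ hyG))
  have hqs : ∀ k ω, ((Sp.im r E).F k).μ ω ≠ 0 → (Z.l k).T.μ ω ≠ 0 := fun k ω hω =>
    FSp.im_supp (r.fp k) (E k) ω hω
  have hn'' : ∀ k, ((Sp.im r E).F k).n = Z.e * (S.F k).n := fun k => Z.sp_n k
  have hUB : UB (fun k => avg (Sp.im r E) (fun k ω => vx s k (g k ω) ((Z.l k).p.π ω)) k / (S.F k).n) := by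
    obtain ⟨C, hC, h⟩ := logGG_ub s D
    have h1 : UB (fun k => avg (Sp.im r E) (fun k ω => vx s k (g k ω) ((Z.l k).p.π ω)) k /
        ((Sp.im r E).F k).n) := by
      apply avg_UB (C := C / Z.e)
      filter_upwards [h, hx.1 1 one_pos] with k h1 h2 ω hω
      have h3 := (h2.2.2.1 ω (hqs k ω hω)).1
      refine ⟨logGG_nonneg _ h3.pdM _, ?_⟩
      have h4 := h1 _ ((Z.l k).p.supp _ (hqs k ω hω)) _ h3
      rw [hn'' k, ← mul_assoc, div_mul_cancel₀ _ Z.e_pos.ne']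
      exact h4
    have h2 : (fun k => avg (Sp.im r E) (fun k ω => vx s k (g k ω) ((Z.l k).p.π ω)) k / (S.F k).n) =
        fun k => Z.e * (avg (Sp.im r E) (fun k ω => vx s k (g k ω) ((Z.l k).p.π ω)) k /
        ((Sp.im r E).F k).n) := by
      funext k
      rw [hn'' k]
      have := Z.e_pos
      have := (S.F k).pos
      field_simp
    rw [h2]
    exact h1.const_mul _
  have hUB2 : UB (fun k => lgd (Z.sys.im r E hE) D y k / ((Sp.im r E).F k).n) := lgd_UB _ hy.1.1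
  apply le_of_forall_pos_lt_add
  intro e he
  set ε : ℝ := e / (2 * (m + 1)) with hε
  have hε0 : 0 < ε := by positivity
  have hmε : m * ε < e := by
    have e5 : ε * (2 * (m + 1)) = e := by rw [hε]; field_simp
    have hm : (0 : ℝ) ≤ m := Nat.cast_nonneg m
    nlinarith
  -- domination on the event
  have hd1 := dom_ext hx hw (fun k => (Z.l k).cq Z.e Z.e_pos (lb (gluS r E y y2) k)) (fun _ _ _ => rfl)
    (fun k ω ω' g => g.1) ε hε0
  have hd2 := glu_tend r E hE y y2 (fun k ω M => ¬ ∀ v, qf (cutm ((gau s D).cp k)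
    (1 + afm (Z.oi k ω) (S.dl Z.c k)⁻¹ M)) v ≤ 2 ^ (ε * (S.F k).n) * qf (g k ω) v) hd1
  have hd3 := glu_tend r E hE y y2 (fun k ω M => ¬ Cpd ((gau s D).cp k)
    (1 + afm (Z.oi k ω) (S.dl Z.c k)⁻¹ M)) (Z.zfm_typ hyG)
  obtain ⟨C, hC, hub⟩ := logGG_ub Z.sys D
  set G : ∀ k, (y k).l.T.Ω → Prop := fun k w =>
    (∀ v, qf (cutm ((gau s D).cp k) (1 + afm (Z.oi k ((y k).l.p.π w)) (S.dl Z.c k)⁻¹ ((y k).g w))) v ≤
      2 ^ (ε * (S.F k).n) * qf (g k ((y k).l.p.π w)) v) ∧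
    Cpd ((gau s D).cp k) (1 + afm (Z.oi k ((y k).l.p.π w)) (S.dl Z.c k)⁻¹ ((y k).g w)) with hG
  have hd4 : Tendsto (fun k => (y k).l.T.pb (fun w => ¬ G k w)) UF (𝓝 0) := by
    have h5 := hd2.add hd3
    rw [add_zero] at h5
    refine squeeze_zero (fun k => FSp.pb_nonneg _ _) (fun k => ?_) h5
    refine le_trans (FSp.pb_mono _ ?_) (pb_or _ _ _)
    intro w _ h6
    by_contra h7
    rw [not_or, not_not, not_not] at h7
    exact h6 h7
  have t1 := (ul_tendsto hUB2).const_mul Z.e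
  have t2 := ul_tendsto hUB
  have t3 := hd4.const_mul (C * Z.e + (2 * m * Z.c + 1 + m * ε))
  rw [mul_zero] at t3
  have t4 : Tendsto (fun k => (m : ℝ) / (S.F k).n) UF (𝓝 0) := S.div_n_tendsto m
  have t5 := (((t2.sub_const (2 * m * Z.c - m * ε)).add t4).add t3)
  rw [add_zero, add_zero] at t5
  have h4 := le_of_tendsto_of_tendsto t1 t5 (by
    filter_upwards [hub, hy.1.1 1 one_pos, hx.1 1 one_pos, S.lim.eventually (eventually_ge_atTop (m : ℝ))] with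
      k h1 h2 h3 hnm
    have hn := (S.F k).pos
    have hcy : ∀ ω, (y k).l.T.μ ω ≠ 0 → Cpd ((gau Z.sys D).cp k) ((y k).g ω) := fun ω hω => (h2.2.2.1 ω hω).1
    have hsup : ∀ ω, (y k).l.T.μ ω ≠ 0 → (Z.l k).T.μ ((y k).l.p.π ω) ≠ 0 := fun ω hω =>
      hqs k _ ((y k).l.p.supp ω hω)
    have hcx : ∀ ω, (y k).l.T.μ ω ≠ 0 → Cpd ((gau s D).cp k) (g k ((y k).l.p.π ω)) := fun ω hω =>
      (h3.2.2.1 _ (hsup ω hω)).1
    have hn' : ((Sp.im r E).F k).n = Z.e * (S.F k).n := Z.sp_n k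
    set f : (y k).l.T.Ω → ℝ := fun ω => Real.logb 2 (GG (S.dl 1 k) (g k ((y k).l.p.π ω))
      (ptf s k ((Z.l k).p.π ((y k).l.p.π ω)))) with hf
    set g' : (y k).l.T.Ω → ℝ := fun ω => Real.logb 2 (GG (Z.sp.dl 1 k) ((y k).g ω)
      (ptf Z.sys k ((y k).l.p.π ω))) with hg
    have e1 : avg (Sp.im r E) (fun k ω => vx s k (g k ω) ((Z.l k).p.π ω)) k = ∑ ω, (y k).l.T.μ ω * f ω :=
      (sum_push (y k).l.p (fun ω => Real.logb 2 (GG (S.dl 1 k) (g k ω)
        (ptf s k ((Z.l k).p.π ω))))).symm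
    have e2 : lgd (Z.sys.im r E hE) D y k = ∑ ω, (y k).l.T.μ ω * g' ω := rfl
    have h5 := exp_le (y k).l.T f g' (G k) (2 * m * Z.c * (S.F k).n - m - m * ε * (S.F k).n)
      (C * (Z.e * (S.F k).n)) (by
        intro ω hω hEG
        have a1 := GG_pos' (Z.sp.dl 1 k) (hcy ω hω).pdM (ptf Z.sys k ((y k).l.p.π ω))
        have a2 := GG_pos' (S.dl 1 k) (hcx ω hω).pdM (ptf s k ((Z.l k).p.π ((y k).l.p.π ω)))
        have a3 : GG (Z.sp.dl 1 k) ((y k).g ω) (ptf Z.sys k ((y k).l.p.π ω)) ≤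
            (2 * S.dl Z.c k ^ 2) ^ m * GG (S.dl 1 k)
              (1 + afm (Z.oi k ((y k).l.p.π ω)) (S.dl Z.c k)⁻¹ ((y k).g ω))
              (ptf s k ((Z.l k).p.π ((y k).l.p.π ω))) := Z.zfm_GG hD (gluS r E y y2) k (Sum.inl ω) (hcy ω hω)
        have a0 : cutm ((gau s D).cp k) (1 + afm (Z.oi k ((y k).l.p.π ω)) (S.dl Z.c k)⁻¹ ((y k).g ω)) =
            1 + afm (Z.oi k ((y k).l.p.π ω)) (S.dl Z.c k)⁻¹ ((y k).g ω) := by
          unfold cutm
          rw [if_pos hEG.2]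
        have hdm := hEG.1
        rw [a0] at hdm
        have a4 := GG_scale (S.dl 1 k) (g k ((y k).l.p.π ω))
          (1 + afm (Z.oi k ((y k).l.p.π ω)) (S.dl Z.c k)⁻¹ ((y k).g ω)) (hcx ω hω).1 (hcx ω hω).pdM.nonneg
          hEG.2.1 hEG.2.pdM.nonneg (ptf s k ((Z.l k).p.π ((y k).l.p.π ω))) (2 ^ (ε * (S.F k).n))
          (Real.one_le_rpow (by norm_num) (mul_nonneg hε0.le hn.le)) hdm
        have hd := S.dl_pos Z.c k
        have a5 : GG (Z.sp.dl 1 k) ((y k).g ω) (ptf Z.sys k ((y k).l.p.π ω)) ≤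
            (2 * S.dl Z.c k ^ 2) ^ m * ((2 ^ (ε * (S.F k).n)) ^ m * GG (S.dl 1 k) (g k ((y k).l.p.π ω))
              (ptf s k ((Z.l k).p.π ((y k).l.p.π ω)))) :=
          a3.trans (mul_le_mul_of_nonneg_left a4 (by positivity))
        have a6 := log_est m a1 a2 hd (by positivity) a5
        have hlog : Real.logb 2 (S.dl Z.c k) = -(Z.c * (S.F k).n) := by
          unfold Sp.dl
          rw [Real.logb_rpow (by norm_num) (by norm_num)]
        rw [hlog, Real.logb_rpow (by norm_num) (by norm_num)] at a6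
        show g' ω ≤ f ω - (2 * m * Z.c * (S.F k).n - m - m * ε * (S.F k).n)
        linarith) (by
        intro ω hω
        have a1 := h1 _ (hsup ω hω) _ (hcy ω hω)
        have a2 : ((Z.sp).F k).n = Z.e * (S.F k).n := Z.sp_n k
        rw [a2] at a1
        exact a1) (by
        intro ω hω
        exact logGG_nonneg _ (hcx ω hω).pdM _)
    rw [← e1, ← e2] at h5
    rw [hn']
    exact fin_est m Z.e_pos Z.h0 hε0.le hn hnm ((y k).l.T.pb_nonneg (fun ω => ¬ G k ω)) h5)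
  linarith

end

end

end Pool.Agent.Helper3.UF
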