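import Pool.Agent.Helper3.UF.Lb
import Pool.Agent.Helper3.UF.Dom

/-! Forms of the zoom as forms of the system. -/

set_option autoImplicit false

namespace Pool.Agent.Helper3.UF

open Finset Filter Topology Matrix Pool.Agent.Helper69.RK Pool.Agent.Helper31.EC Pool.Agent.Helper40.EL
open Pool.Agent.Helper31.EC.Sp
open Pool.Agent.Helper95.LF Pool.Agent.Helper3.LF Pool.Agent.Helper48.NS Pool.Agent.Helper89.LX
open Pool.Agent.Helper3.PR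
open Pool.Agent.Helper3.ZM (aff afs afm phi_afm gam_afm afm_symm afm_nonneg GG_gain VV_ext cellv_pj' triv_DM h_kap)

noncomputable section

variable {S : Sp} {m r D : ℕ}

namespace ZT

variable {s : Sys S m} (Z : ZT s)

/-- the inverse corner -/
def oi (k : ℕ) (ω : (Z.l k).T.Ω) : Fin (m + 1) → ℝ := fun i => -((S.dl Z.c k)⁻¹ * Z.oo k ω i)

/-- labels of the zoom as labels of the system -/
def cl (y : Lab Z.sp) : Lab S := Z.l.comp Z.e Z.e_pos y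

/-- the form on the old space -/
def zfm (y : ∀ k, FD (Z.sp.F k) (Mon (m + 1) D)) (k : ℕ) (ω : (y k).l.T.Ω) :
    Matrix (Mon (m + 1) D) (Mon (m + 1) D) ℝ := 1 + afm (Z.oi k ((y k).l.p.π ω)) (S.dl Z.c k)⁻¹ ((y k).g ω)

theorem zfm_meas (y : ∀ k, FD (Z.sp.F k) (Mon (m + 1) D)) (k : ℕ) (ω ω' : (Z.cl (lb y) k).T.Ω)
    (h : (Z.cl (lb y) k).T.μ ω ≠ 0) (h' : (Z.cl (lb y) k).T.μ ω' ≠ 0) (hV : (Z.cl (lb y) k).V ω ω')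
    (hZ : (Z.cl (lb y) k).T.Z ω ω') : Z.zfm y k ω = Z.zfm y k ω' := by
  have a : (y k).l.T.μ ω ≠ 0 := h
  have a' : (y k).l.T.μ ω' ≠ 0 := h'
  have b : (Z.l k).T.μ ((y k).l.p.π ω) ≠ 0 := (y k).l.p.supp ω a
  have b' : (Z.l k).T.μ ((y k).l.p.π ω') ≠ 0 := (y k).l.p.supp ω' a'
  have c1 : (Z.l k).V ((y k).l.p.π ω) ((y k).l.p.π ω') := hV.1
  have c2 : (y k).l.V ω ω' := hV.2
  have c3 : (S.F k).Z ((Z.l k).p.π ((y k).l.p.π ω)) ((Z.l k).p.π ((y k).l.p.π ω')) := hZ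
  have c4 : (Z.l k).T.Z ((y k).l.p.π ω) ((y k).l.p.π ω') := ((Z.l k).p.hZ _ _ b b').mpr c3
  have c5 : (y k).l.T.Z ω ω' := ((y k).l.p.hZ ω ω' a a').mpr ⟨c1, c4⟩
  have e1 := ((y k).meas ω ω' a a' c2 c5).1
  have e2 := Z.oo_meas k _ _ b b' c1 c4
  unfold zfm oi
  rw [e1, e2]

theorem zfm_ge {A B : Part Z.sp} {Φ : Gau Z.sp (Mon (m + 1) D)} {y : ∀ k, FD (Z.sp.F k) (Mon (m + 1) D)}
    (hy : Φ.Ad A B y) : ∀ᶠ k in UF, ∀ ω, (Z.cl (lb y) k).T.μ ω ≠ 0 →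
      (Z.zfm y k ω).IsSymm ∧ ∀ x, x ⬝ᵥ x ≤ qf (Z.zfm y k ω) x := by
  filter_upwards [hy 1 one_pos] with k hk ω hω
  have h1 := (hk.2.2.1 ω hω).1
  unfold zfm
  refine ⟨Matrix.isSymm_one.add (afm_symm _ _ h1.1), fun x => ?_⟩
  rw [qf_add, qf_one]
  have h2 := afm_nonneg (Z.oi k ((y k).l.p.π ω)) (S.dl Z.c k)⁻¹ (A := (y k).g ω) (fun v => h1.psd.2 v) x
  show x ⬝ᵥ x ≤ x ⬝ᵥ x + x ⬝ᵥ (afm (Z.oi k ((y k).l.p.π ω)) (S.dl Z.c k)⁻¹ ((y k).g ω) *ᵥ x)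
  linarith

theorem zfm_phi {A B : Part Z.sp} {y : ∀ k, FD (Z.sp.F k) (Mon (m + 1) D)}
    (hy : (gau Z.sys D).Ad A B y) :
    ∃ L : ℕ → ℝ, S.Sub L ∧ Sp.Typ (S := (Z.cl (lb y)).sp) (fun k (ω : (y k).l.T.Ω) =>
      (gau s D).φ k ((Z.cl (lb y) k).p.π ω) (Z.zfm y k ω) ≤ L k) := by
  obtain ⟨K1, hK1, hT⟩ := ad_sub hy
  obtain ⟨K2, hK2, h2⟩ := (gau s D).one
  refine ⟨fun k => K2 k + K1 k, hK2.add (Z.Sub_sp.mpr hK1), ?_⟩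
  refine squeeze_zero' (Eventually.of_forall fun k => Sp.mass_res_nonneg (S := (Z.cl (lb y)).sp) k _) ?_ hT
  filter_upwards [h2] with k a
  refine mass_res_mono (y k).l.T.μ _ _ (y k).l.T.nn (fun ω hω hE hcon => hE ?_)
  have hω' : (Z.l k).T.μ ((y k).l.p.π ω) ≠ 0 := (y k).l.p.supp ω hω
  have hω'' := (Z.l k).p.supp _ hω'
  have h4 : (gau s D).φ k ((Z.l k).p.π ((y k).l.p.π ω)) (Z.zfm y k ω) =
      (gau s D).φ k ((Z.l k).p.π ((y k).l.p.π ω)) 1 +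
        phi (S.dl 1 k) (afm (Z.oi k ((y k).l.p.π ω)) (S.dl Z.c k)⁻¹ ((y k).g ω))
          (ptf s k ((Z.l k).p.π ((y k).l.p.π ω))) := (gau s D).add k _ _ _
  show (gau s D).φ k ((Z.l k).p.π ((y k).l.p.π ω)) (Z.zfm y k ω) ≤ K2 k + K1 k
  rw [h4]
  refine add_le_add (a _ hω'') ?_
  rw [phi_afm, Z.dl_eq]
  have h5 : aff (Z.oi k ((y k).l.p.π ω)) (S.dl Z.c k)⁻¹ (ptf s k ((Z.l k).p.π ((y k).l.p.π ω))) =
      ptf Z.sys k ((y k).l.p.π ω) := Z.ptf_aff' k _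
  rw [h5]
  exact hcon

/-- forms of the zoom are admissible for the system -/
theorem zfm_ad {A B : Part Z.sp} {A' B' : Part S} {y : ∀ k, FD (Z.sp.F k) (Mon (m + 1) D)}
    (hy : (gau Z.sys D).Ad A B y) (hc : (Z.cl (lb y)).DM A' B') :
    (gau s D).Ad A' B' (cutFD (gau s D) (Z.cl (lb y)) (Z.zfm y) (Z.zfm_meas y)) := by
  obtain ⟨L, hL, hT⟩ := Z.zfm_phi hy
  exact cut_ad (Φ := gau s D) (Z.cl (lb y)) hc (Z.zfm y) (Z.zfm_meas y) (Z.zfm_ge hy) L hL hT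

theorem zfm_typ {A B : Part Z.sp} {y : ∀ k, FD (Z.sp.F k) (Mon (m + 1) D)} (hy : (gau Z.sys D).Ad A B y) :
    Tendsto (fun k => (y k).l.T.pb (fun ω => ¬ Cpd ((gau s D).cp k) (Z.zfm y k ω))) UF (𝓝 0) := by
  obtain ⟨L, hL, hT⟩ := Z.zfm_phi hy
  exact cut_typ (Φ := gau s D) (Z.cl (lb y)) (Z.zfm y) (Z.zfm_ge hy) L hL hT

/-- comparison of the volume determinants -/
theorem zfm_GG (hD : 1 ≤ D) (y : ∀ k, FD (Z.sp.F k) (Mon (m + 1) D)) (k : ℕ) (ω : (y k).l.T.Ω) {c : ℝ}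
    (hc : Cpd c ((y k).g ω)) :
    GG (Z.sp.dl 1 k) ((y k).g ω) (ptf Z.sys k ((y k).l.p.π ω)) ≤
      (2 * S.dl Z.c k ^ 2) ^ m * GG (S.dl 1 k) (Z.zfm y k ω) (ptf s k ((Z.l k).p.π ((y k).l.p.π ω))) := by
  have h0 : ∀ x, 0 ≤ x ⬝ᵥ (afm (Z.oi k ((y k).l.p.π ω)) (S.dl Z.c k)⁻¹ ((y k).g ω) *ᵥ x) :=
    afm_nonneg _ _ fun v => hc.psd.2 v
  have hA : PdM (Z.zfm y k ω) := by
    refine pdM_of_one_le (Matrix.isSymm_one.add (afm_symm _ _ hc.1)) fun x => ?_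
    unfold zfm
    rw [qf_add, qf_one]
    have := h0 x
    show x ⬝ᵥ x ≤ x ⬝ᵥ x + x ⬝ᵥ (afm (Z.oi k ((y k).l.p.π ω)) (S.dl Z.c k)⁻¹ ((y k).g ω) *ᵥ x)
    linarith
  have h1 := GG_gain hD (S.dl 1 k) (S.dl Z.c k) (S.dl_pos Z.c k) (Z.zfm y k ω) ((y k).g ω) hA hc.1 hc.2.1
    (Z.oi k ((y k).l.p.π ω)) (ptf s k ((Z.l k).p.π ((y k).l.p.π ω))) (fun x => by
      unfold zfm
      rw [dv_add, Matrix.one_mulVec]
      have := dot_self_nonneg x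
      linarith)
  have h5 : aff (Z.oi k ((y k).l.p.π ω)) (S.dl Z.c k)⁻¹ (ptf s k ((Z.l k).p.π ((y k).l.p.π ω))) =
      ptf Z.sys k ((y k).l.p.π ω) := Z.ptf_aff' k _
  rw [Z.dl_eq, h5] at h1
  exact h1

end ZT

end

end Pool.Agent.Helper3.UF
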