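import Pool.Agent.Helper3.UF.Ev

/-! FULLNESS ON EVENTS: over the label of an optimal form, and on every event of every extension, the points of the
system fill the regular volume of the form. -/

set_option autoImplicit false

namespace Pool.Agent.Helper3.UF

open Finset Filter Topology Matrix Pool.Agent.Helper69.RK Pool.Agent.Helper31.EC Pool.Agent.Helper40.EL
open Pool.Agent.Helper31.EC.Sp
open Pool.Agent.Helper95.LF Pool.Agent.Helper3.LF Pool.Agent.Helper48.NS Pool.Agent.Helper89.LX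
open Pool.Agent.Helper3.PR
open Pool.Agent.Helper3.SG (Fac)
open Pool.Agent.Helper3.ZM (cel cel_bdd cl_cel celW cel_nul celL st_lvol)
open Pool.Agent.Helper59.LF (ladd fadd DM_ladd)
open Pool.Agent.Helper59.EV (ST)

noncomputable section

variable {S : Sp} {m D : ℕ}

section

variable {s : Sys S m} (Z : ZT s) (g g' : ∀ k, (Z.l k).T.Ω → Matrix (Mon (m + 1) D) (Mon (m + 1) D) ℝ)
  (meas : ∀ k ω ω', (Z.l k).T.μ ω ≠ 0 → (Z.l k).T.μ ω' ≠ 0 → (Z.l k).V ω ω' → (Z.l k).T.Z ω ω' →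
    g k ω = g k ω' ∧ g' k ω = g' k ω')

theorem im_h (z : Sys S m) {T : Sp} (r : Pj T S) (E : ∀ k, (T.F k).Ω → Prop) (hE : 0 < ul (T.pr E)) :
    h ((z.im r E hE).P.dg 1) (z.im r E hE).T = h (restL E hE (r.map (z.P.dg 1))) (restL E hE (r.map z.T)) := by
  have e1 := VV.im_dg r E z.P 1 hE
  have e2 := VV.im_dg r E z.t 1 hE
  rw [← (imq r E).h_map]
  exact congrArg₂ h e1 e2

/-- fullness on events, in terms of the zoom -/
theorem ev_full (hD : 1 ≤ D) (hst : ST D m) {A B : Part S} (hx : (gau s D).Opt A B (xz Z g g' meas))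
    (hc : ∀ y : Lab Z.sp, DMc Z.sys 0 y → (Z.cl y).DM A B)
    {T : Sp} (r : Pj T Z.sp) (E : ∀ k, (T.F k).Ω → Prop) (hE : 0 < ul (T.pr E)) :
    m - ul (fun k => avg (Sp.im r E) (fun k ω => vx s k (g k ω) ((Z.l k).p.π ω)) k / (S.F k).n) / 2 ≤
      Z.e * h (restL E hE (r.map (Z.U (s.P.dg 1)))) (restL E hE (r.map (Z.U s.T))) := by
  have h1 := ev_lvol Z g g' meas hD hx hc r E hE
  have h2 := st_lvol hst (Z.sys.im r E hE)
  rw [im_h, Z.P_dg_one, Z.sys_T] at h2
  have h3 := mul_le_mul_of_nonneg_left h2 Z.e_pos.le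
  have h4 := Z.c_add_e
  have h5 : (m : ℝ) = m * (Z.c + Z.e) := by rw [h4, mul_one]
  have h6 : Z.e * (m - lvol (Z.sys.im r E hE) D 0 / 2) = m * Z.e - Z.e * lvol (Z.sys.im r E hE) D 0 / 2 := by ring
  rw [h6] at h3
  linarith

end

/-! ### change of the base -/

section

variable {T0 : Sp} {l : Lab S} (r0 : Pj T0 (l.ovr 1 one_pos)) (W : ∀ k, Setoid (l k).T.Ω) (e : ℝ) (he : 0 < e)

/-- extensions of the space over a label as extensions of the space over a finer label -/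
def cnv : Pj (T0.chg (fun k => Setoid.comap (r0.π k) (W k)) e he) ((ladd l W).ovr e he) where
  π := r0.π
  law := r0.law
  hZ := by
    intro k ω ω' a b
    have h1 : (T0.F k).Z ω ω' ↔ ((l k).V ⊓ (l k).T.Z) (r0.π k ω) (r0.π k ω') := r0.hZ k ω ω' a b
    show (Setoid.comap (r0.π k) (W k) ⊓ (T0.F k).Z) ω ω' ↔
      (((l k).V ⊓ W k) ⊓ (l k).T.Z) (r0.π k ω) (r0.π k ω')
    constructor
    · intro h2
      have h3 := h1.mp h2.2
      exact ⟨⟨h3.1, h2.1⟩, h3.2⟩
    · intro h2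
      exact ⟨h2.1.2, h1.mpr ⟨h2.1.1, h2.2⟩⟩
  hn := by
    intro k
    have h1 := r0.hn k
    have h2 : ((l.ovr 1 one_pos).F k).n = 1 * (l k).T.n := rfl
    show e * (T0.F k).n = e * (l k).T.n
    rw [h1, h2, one_mul]

theorem cnv_h (E : ∀ k, (T0.F k).Ω → Prop) (hE : 0 < ul (T0.pr E)) (x y : S.L) :
    e * h (restL (S := T0.chg (fun k => Setoid.comap (r0.π k) (W k)) e he) E hE
        ((cnv r0 W e he).map ((ladd l W).upL e he x)))
      (restL (S := T0.chg (fun k => Setoid.comap (r0.π k) (W k)) e he) E hE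
        ((cnv r0 W e he).map ((ladd l W).upL e he y))) ≤
      h (restL E hE (r0.map (up1 l x))) (restL E hE (r0.map (up1 l y))) := by
  induction x using cl_ind with | _ A
  induction y using cl_ind with | _ B
  set T2 := T0.chg (fun k => Setoid.comap (r0.π k) (W k)) e he with hT2
  set A2 : (T2.rest E).Inf := restI (S := T2) E ((cnv r0 W e he).mapI ((ladd l W).upI e he A)) with hA2
  set B2 : (T2.rest E).Inf := restI (S := T2) E ((cnv r0 W e he).mapI ((ladd l W).upI e he B)) with hB2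
  set A1 : (T0.rest E).Inf := restI E (r0.mapI (l.upI 1 one_pos A)) with hA1
  set B1 : (T0.rest E).Inf := restI E (r0.mapI (l.upI 1 one_pos B)) with hB1
  have h1 : h (restL (S := T2) E hE ((cnv r0 W e he).map ((ladd l W).upL e he (cl A))))
      (restL (S := T2) E hE ((cnv r0 W e he).map ((ladd l W).upL e he (cl B)))) = h (cl A2) (cl B2) := rfl
  have h2 : h (restL E hE (r0.map (up1 l (cl A)))) (restL E hE (r0.map (up1 l (cl B)))) =
      h (cl A1) (cl B1) := rfl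
  rw [h1, h2, h_cl, h_cl]
  have hu1 : UB ((T2.rest E).rt A2.1 B2.1) := UB_rt _ _
  have hu2 : UB ((T0.rest E).rt A1.1 B1.1) := UB_rt _ _
  rw [← ul_const_mul e hu1]
  apply ul_mono (hu1.const_mul e) hu2
  refine Eventually.of_forall fun k => ?_
  have hn : ((T2.rest E).F k).n = e * ((T0.rest E).F k).n := rfl
  have h3 : ((T2.rest E).F k).e (A2.1 k) (B2.1 k ⊓ ((T2.rest E).F k).Z) ≤
      ((T0.rest E).F k).e (A1.1 k) (B1.1 k ⊓ ((T0.rest E).F k).Z) := by
    show ((T0.rest E).F k).e (A1.1 k) (B1.1 k ⊓ (Setoid.comap (r0.π k) (W k) ⊓ (T0.F k).Z)) ≤ _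
    apply ((T0.rest E).F k).e_anti
    intro ω ω' _ _ h4
    exact ⟨h4.1, h4.2.2⟩
  show e * (((T2.rest E).F k).e (A2.1 k) (B2.1 k ⊓ ((T2.rest E).F k).Z) / ((T2.rest E).F k).n) ≤
    ((T0.rest E).F k).e (A1.1 k) (B1.1 k ⊓ ((T0.rest E).F k).Z) / ((T0.rest E).F k).n
  rw [hn]
  have hp := ((T0.rest E).F k).pos
  have h5 : e * (((T2.rest E).F k).e (A2.1 k) (B2.1 k ⊓ ((T2.rest E).F k).Z) / (e * ((T0.rest E).F k).n)) =
      ((T2.rest E).F k).e (A2.1 k) (B2.1 k ⊓ ((T2.rest E).F k).Z) / ((T0.rest E).F k).n := by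
    field_simp
  rw [h5]
  exact div_le_div_of_nonneg_right h3 hp.le

end

end

end Pool.Agent.Helper3.UF
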