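import Pool.Agent.Helper3.UF.Zoom

/-! Labels over a partition `W` of the space: pairs of informations `W ⊔ A`, `W ⊔ B`. -/

set_option autoImplicit false

namespace Pool.Agent.Helper3.UF

open Finset Filter Topology Matrix Pool.Agent.Helper69.RK Pool.Agent.Helper31.EC Pool.Agent.Helper40.EL
open Pool.Agent.Helper31.EC.Sp
open Pool.Agent.Helper95.LF Pool.Agent.Helper3.LF Pool.Agent.Helper48.NS Pool.Agent.Helper89.LX
open Pool.Agent.Helper3.PR
open Pool.Agent.Helper3.SG (Fac)
open Pool.Agent.Helper3.ZM (cel cel_bdd cl_cel celW cel_nul celL)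
open Pool.Agent.Helper59.LF (ladd fadd DM_ladd)

noncomputable section

variable {R : Sp} {m r D : ℕ}

/-- informations over a partition -/
def WA (W : ∀ k, Setoid (R.F k).Ω) (A : Part R) : Part R := fun k => fc (W k) ⊔ A k

theorem WA_mono (W : ∀ k, Setoid (R.F k).Ω) {A B : Part R} (h : PLe A B) : PLe (WA W A) (WA W B) := by
  apply Nul.of_le h (Eventually.of_forall fun k => h_nonneg _ _)
  refine Eventually.of_forall fun k => ?_
  unfold WA
  have h1 := h_sup_le (fc (W k)) (A k) (fc (W k) ⊔ B k)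
  rw [h_zero (le_sup_left : fc (W k) ≤ fc (W k) ⊔ B k), zero_add] at h1
  exact h1.trans (h_anti le_sup_right)

theorem le_WA (W : ∀ k, Setoid (R.F k).Ω) (A : Part R) : PLe A (WA W A) := PLe_of_le fun _ => le_sup_right

/-- a partition as a label -/
def idl (W : ∀ k, Setoid (R.F k).Ω) : Lab R := fun k =>
  ⟨(FLab.triv (R.F k)).T, (FLab.triv (R.F k)).p, (FLab.triv (R.F k)).hn, W k⟩

theorem idl_map (W : ∀ k, Setoid (R.F k).Ω) (k : ℕ) (x : FL (R.F k)) : (idl W k).p.map x = x := by
  induction x using fc_ind with | _ A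
  rfl

theorem idl_v (W : ∀ k, Setoid (R.F k).Ω) (k : ℕ) : (idl W k).v = (fc (W k) : FL (R.F k)) := rfl

/-- labels which are finer than a partition of the space -/
def Lt (W : ∀ k, Setoid (R.F k).Ω) (l : Lab R) : Prop :=
  ∀ k ω ω', (l k).V ω ω' → W k ((l k).p.π ω) ((l k).p.π ω')

theorem Lt.le {W : ∀ k, Setoid (R.F k).Ω} {l : Lab R} (h : Lt W l) (k : ℕ) :
    (l k).p.map (fc (W k)) ≤ (l k).v := fc_mono (fun ω ω' g => h k ω ω' g)

theorem hrU (l : Lab R) (x y : R.L) : UB (fun k => h ((l k).p.map (rp x k)) ((l k).p.map (rp y k) ⊔ (l k).v) /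
    (R.F k).n) := by
  refine UB.sandwich (UB_const 0) ((rp_Bd x).ub (fun _ => ⊥)) ?_ ?_
  · exact Eventually.of_forall fun k => div_nonneg (h_nonneg _ _) (R.F k).pos.le
  · refine Eventually.of_forall fun k => div_le_div_of_nonneg_right ?_ (R.F k).pos.le
    rw [h_bot, ← (l k).p.H_map]
    exact h_le_H _ _

/-- (C) for labels over a partition: conditional entropies given `W ⊔ A` do not change over a label without leak at
`W ⊔ A` -/
theorem h_over {W : ∀ k, Setoid (R.F k).Ω} {l : Lab R} (hW : Lt W l) {A : R.L}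
    (hl : Nul R (fun k => (l k).leak (WA W (rp A) k))) (x : R.L) :
    h (up1 (idl W) x) (up1 (idl W) A) ≤ h (up1 l x) (up1 l A) := by
  rw [(idl W).hr_upL, l.hr_upL, div_one, div_one]
  have t1 := (ul_tendsto (hrU l x A)).add hl
  rw [add_zero] at t1
  refine le_of_tendsto_of_tendsto (ul_tendsto (hrU (idl W) x A)) t1 ?_
  refine Eventually.of_forall fun k => ?_
  show h ((idl W k).p.map (rp x k)) ((idl W k).p.map (rp A k) ⊔ (idl W k).v) / (R.F k).n ≤
    h ((l k).p.map (rp x k)) ((l k).p.map (rp A k) ⊔ (l k).v) / (R.F k).n + (l k).leak (WA W (rp A) k) / (R.F k).n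
  rw [← add_div]
  apply div_le_div_of_nonneg_right _ (R.F k).pos.le
  rw [idl_map, idl_map, idl_v]
  have e1 : h (rp x k) (rp A k ⊔ fc (W k)) = h ((l k).p.map (rp x k)) ((l k).p.map (WA W (rp A) k)) := by
    rw [(l k).p.h_map]
    unfold WA
    rw [sup_comm]
  have e2 : (l k).p.map (rp A k) ⊔ (l k).v = (l k).p.map (WA W (rp A) k) ⊔ (l k).v := by
    unfold WA
    rw [(l k).p.map_sup, sup_comm ((l k).p.map (fc (W k))), sup_assoc, sup_eq_right.mpr (hW.le k)]
  have h3 := I_eq' (l k).v ((l k).p.map (rp x k)) ((l k).p.map (WA W (rp A) k))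
  have h4 : I (l k).v ((l k).p.map (rp x k)) ((l k).p.map (WA W (rp A) k)) ≤ (l k).leak (WA W (rp A) k) :=
    I_mono_right (((l k).p.map_le_top _).trans le_sup_left)
  rw [sup_comm (l k).v, ← e2] at h3
  have h5 : h ((l k).p.map (rp x k)) ((l k).p.map (WA W (rp A) k)) ≤
      h ((l k).p.map (rp x k)) ((l k).p.map (rp A k) ⊔ (l k).v) + (l k).leak (WA W (rp A) k) := by linarith
  exact (le_of_eq e1).trans h5

/-- heights are full over labels with no leak at `W ⊔ A` -/
theorem hT_over {g : Sys R r} {s : Sys R m} (hF : Fac g s) {W : ∀ k, Setoid (R.F k).Ω} {c : ℝ} (h1 : c ≤ 1)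
    (hW0 : 1 - c ≤ h (up1 (idl W) g.T) (up1 (idl W) (lA g c))) {l : Lab R} (hW : Lt W l)
    (hl : Nul R (fun k => (l k).leak (WA W (rp (lA g c)) k))) (ht : up1 l (s.t.dg c) = ⊥) :
    h (up1 l s.T) (up1 l (s.xi 1)) = 1 - c := by
  apply le_antisymm
  · refine (h_le_H _ _).trans ?_
    have h2 := h_up1_le l s.T (s.t.dg c)
    rw [ht, h_bot] at h2
    have h3 := s.t.h_dg_dg h1
    simp only [Nat.cast_one, one_mul] at h3
    exact h2.trans h3
  · have h2 := h_over hW hl g.T
    rw [← hF.T] at h2 hW0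
    refine (hW0.trans h2).trans (h_anti (up1_mono l ?_))
    exact hF.fxi.trans le_sup_left

/-- labels with cells -/
theorem celL_leak {g : Sys R r} {s : Sys R m} (hF : Fac g s) {W : ∀ k, Setoid (R.F k).Ω} {c : ℝ} (h0 : 0 ≤ c)
    (h1 : c ≤ 1) {l : Lab R} (hl : l.DM (WA W (rp (lA g c))) (WA W (rp (lB g)))) :
    (celL s c h0 l).DM (WA W (rp (lA g c))) (WA W (rp (lB g))) := by
  have key : ∀ (A : R.L), s.t.dg c ⊔ s.P.dg c ≤ A →
      Nul R (fun k => h (fc (celW s c h0 l k)) ((l k).v ⊔ (l k).p.map (WA W (rp A) k))) := by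
    intro A hA
    have h2 := cel_nul h0 l (A := rpo A) (by rw [cl_rpo]; exact hA)
    apply Nul.of_le h2 (Eventually.of_forall fun k => h_nonneg _ _)
    refine Eventually.of_forall fun k => h_anti (sup_le_sup_left ((l k).p.map_mono ?_) _)
    exact le_sup_right
  apply DM_ladd hl
  · apply key
    exact (sup_le le_sup_right (P_le_A s h1)).trans (hF.A c)
  · apply key
    exact (sup_le (t_le_B s h1) (P_le_B s h1)).trans hF.B

theorem celL_Lt {s : Sys R m} {W : ∀ k, Setoid (R.F k).Ω} {c : ℝ} (h0 : 0 ≤ c) {l : Lab R} (hW : Lt W l) :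
    Lt W (celL s c h0 l) := fun k ω ω' g => hW k ω ω' g.1

theorem celL_t {s : Sys R m} {c : ℝ} (h0 : 0 ≤ c) (l : Lab R) : up1 (celL s c h0 l) (s.t.dg c) = ⊥ := by
  have h1 : up1 (celL s c h0 l) (s.t.dg c ⊔ s.P.dg c) = ⊥ := by
    rw [← cl_cel s c h0]
    apply le_antisymm _ bot_le
    have h2 := (celL s c h0 l).H_upL 1 one_pos (cl (cel_bdd s c h0).toInf)
    rw [← h_eq_zero_iff, h_bot]
    show H (((celL s c h0 l)).upL 1 one_pos (cl (cel_bdd s c h0).toInf)) = 0
    rw [h2, div_one]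
    apply ul_eq
    have h3 : PLe (rp (cl (cel_bdd s c h0).toInf)) (rpI (cel_bdd s c h0).toInf) := (rp_rpI _).1
    refine tendsto_of_tendsto_of_tendsto_of_le_of_le tendsto_const_nhds h3
      (fun k => div_nonneg (h_nonneg _ _) (R.F k).pos.le) (fun k => ?_)
    apply div_le_div_of_nonneg_right _ (R.F k).pos.le
    have h4 : (celL s c h0 l k).p.map (rpI (cel_bdd s c h0).toInf k) ≤ (celL s c h0 l k).v := by
      apply fc_mono
      intro ω ω' g
      exact g.2
    have h5 := (celL s c h0 l k).p.h_map (rp (cl (cel_bdd s c h0).toInf) k) (rpI (cel_bdd s c h0).toInf k)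
    exact (h_anti h4).trans (le_of_eq h5)
  rw [up1_sup] at h1
  exact le_antisymm (le_sup_left.trans h1.le) bot_le

/-- labels over labels, over a partition -/
theorem comp_WA {W : ∀ k, Setoid (R.F k).Ω} {l : Lab R} (hW : Lt W l) {A B : R.L}
    (hl : l.DM (WA W (rp A)) (WA W (rp B))) (e : ℝ) (he : 0 < e) {y : Lab (l.ovr e he)}
    (hy : y.DM (l.up e he (rp A)) (l.up e he (rp B))) : (l.comp e he y).DM (WA W (rp A)) (WA W (rp B)) := by
  apply Lab.DM.comp hl
  have key : ∀ A : R.L, l.up e he (WA W (rp A)) = l.up e he (rp A) := by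
    intro A
    funext k
    have h1 : (l k).up e he (WA W (rp A) k) = (l k).up e he (fc (W k)) ⊔ (l k).up e he (rp A k) :=
      (l k).up_sup e he _ _
    have h2 : (l k).up e he (fc (W k)) = ⊥ := by
      apply le_antisymm _ bot_le
      have h3 : (l k).up e he (fc (W k)) ≤ (frb (l k).T (l k).V e he).map (l k).v :=
        (frb (l k).T (l k).V e he).map_mono (hW.le k)
      exact h3.trans (le_of_eq (frb (l k).T (l k).V e he).map_W)
    show (l k).up e he (WA W (rp A) k) = (l k).up e he (rp A k)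
    rw [h1, h2, bot_sup_eq]
  rw [key A, key B]
  exact hy

end

end Pool.Agent.Helper3.UF
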