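import Pool.Agent.Helper3.UF.Ful

/-! Optimal forms over a partition `W`: existence, fullness on events. -/

set_option autoImplicit false

namespace Pool.Agent.Helper3.UF

open Finset Filter Topology Matrix Pool.Agent.Helper69.RK Pool.Agent.Helper31.EC Pool.Agent.Helper40.EL
open Pool.Agent.Helper31.EC.Sp
open Pool.Agent.Helper95.LF Pool.Agent.Helper3.LF Pool.Agent.Helper48.NS Pool.Agent.Helper89.LX
open Pool.Agent.Helper3.PR
open Pool.Agent.Helper3.SG (Fac)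
open Pool.Agent.Helper3.ZM (cel_bdd cl_cel celW cel_nul celL st_lvol)
open Pool.Agent.Helper59.LF (ladd fadd DM_ladd)
open Pool.Agent.Helper59.EV (ST)

noncomputable section

variable {R : Sp} {m r D : ℕ}

theorem PLe_lA (g : Sys R r) (c : ℝ) : PLe (rp (lA g c)) (cA g c) ∧ PLe (cA g c) (rp (lA g c)) := by
  have h1 := rp_rpI (Inf.sup (Inf.sup (g.Ia 1) (g.Ix 1)) (g.It c))
  rw [cl_A] at h1
  exact h1

theorem PLe_lB (g : Sys R r) : PLe (rp (lB g)) (cB g) ∧ PLe (cB g) (rp (lB g)) := by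
  have h1 := rp_rpI (Inf.sup (g.IP 1) (g.It 1))
  rw [cl_B] at h1
  exact h1

/-- optimal forms of a factor over a partition `W` of the space: labels exact given `W ⊔ A(c)` and given `W ⊔ B` -/
structure OpW (g : Sys R r) (s : Sys R m) (W : ∀ k, Setoid (R.F k).Ω) (D : ℕ) (c : ℝ)
    (x : ∀ k, FD (R.F k) (Mon (m + 1) D)) : Prop where
  opt : (gau s D).Opt (WA W (cA g c)) (WA W (cB g)) x
  lt : Lt W (lb x)

/-- the partition of the space in the space of a label -/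
def pW (W : ∀ k, Setoid (R.F k).Ω) (l : Lab R) (k : ℕ) : Setoid (l k).T.Ω := Setoid.comap (l k).p.π (W k)

theorem pW_DM {W : ∀ k, Setoid (R.F k).Ω} {l : Lab R} {A B : Part R} (hl : l.DM (WA W A) (WA W B)) :
    (ladd l (pW W l)).DM (WA W A) (WA W B) := by
  have key : ∀ A : Part R, Nul R (fun k => h (fc (pW W l k)) ((l k).v ⊔ (l k).p.map (WA W A k))) := by
    intro A
    have h1 : (fun k => h (fc (pW W l k)) ((l k).v ⊔ (l k).p.map (WA W A k))) = fun _ => 0 := by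
      funext k
      apply h_zero
      have h2 : (fc (pW W l k) : FL (l k).T) = (l k).p.map (fc (W k)) := rfl
      rw [h2]
      exact le_trans ((l k).p.map_mono le_sup_left) le_sup_right
    rw [h1]
    exact Nul_zero R
  exact DM_ladd hl _ (key A) (key B)

/-- optimal forms over a partition exist -/
theorem exists_OpW (g : Sys R r) (s : Sys R m) (W : ∀ k, Setoid (R.F k).Ω) (D : ℕ) (c : ℝ) :
    ∃ x, OpW g s W D c x := by
  obtain ⟨x, hx⟩ := (gau s D).exists_opt (WA W (cA g c)) (WA W (cB g))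
  refine ⟨rfx x (pW W (lb x)), rfx_opt hx _ (pW_DM (Gau.Ad.dm _ hx.1)), fun k ω ω' h => h.2⟩

theorem OpW.opt' {g : Sys R r} {s : Sys R m} {W : ∀ k, Setoid (R.F k).Ω} {c : ℝ}
    {x : ∀ k, FD (R.F k) (Mon (m + 1) D)} (hx : OpW g s W D c x) :
    (gau s D).Opt (WA W (rp (lA g c))) (WA W (rp (lB g))) x :=
  Opt_of_PLe hx.opt (WA_mono W (PLe_lA g c).2) (WA_mono W (PLe_lA g c).1) (WA_mono W (PLe_lB g).2)
    (WA_mono W (PLe_lB g).1)

section

variable {g : Sys R r} {s : Sys R m} {W : ∀ k, Setoid (R.F k).Ω} {c : ℝ} {x : ∀ k, FD (R.F k) (Mon (m + 1) D)}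
  (hx : OpW g s W D c x) (hF : Fac g s) (h0 : 0 ≤ c) (h1 : c < 1)
  (hW0 : 1 - c ≤ h (up1 (idl W) g.T) (up1 (idl W) (lA g c)))

/-- the zoom over the label of an optimal form -/
def opZ : ZT s where
  l := celL s c h0 (lb x)
  c := c
  h0 := h0
  h1 := h1
  h_T := hT_over hF h1.le hW0 (celL_Lt h0 hx.lt) (celL_leak hF h0 h1.le (Gau.Ad.dm _ hx.opt'.1)).1 (celL_t h0 _)
  cell := fun k ω ω' _ _ hV _ => by
    have h2 : (lb x k).V ω ω' ∧ Pool.Agent.Helper3.ZM.cel s c h0 k ((lb x k).p.π ω) =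
      Pool.Agent.Helper3.ZM.cel s c h0 k ((lb x k).p.π ω') := hV
    have h3 := h2.2
    unfold Pool.Agent.Helper3.ZM.cel at h3
    rw [Prod.mk.injEq] at h3
    exact h3

theorem opZ_cl (y : Lab (opZ hx hF h0 h1 hW0).sp) (hy : DMc (opZ hx hF h0 h1 hW0).sys 0 y) :
    ((opZ hx hF h0 h1 hW0).cl y).DM (WA W (rp (lA g c))) (WA W (rp (lB g))) := by
  have hdm := celL_leak hF h0 h1.le (Gau.Ad.dm _ hx.opt'.1)
  apply comp_WA (celL_Lt h0 hx.lt) hdm
  rw [DMc_iff] at hy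
  have h1' : Lab.DML y ((opZ hx hF h0 h1 hW0).U (lA g c)) ((opZ hx hF h0 h1 hW0).U (lB g)) :=
    hy.mono ((opZ hx hF h0 h1 hW0).lA_le.trans ((opZ hx hF h0 h1 hW0).U_mono (hF.A c)))
      ((le_of_eq (opZ hx hF h0 h1 hW0).lB_eq).trans ((opZ hx hF h0 h1 hW0).U_mono hF.B))
  exact ((opZ hx hF h0 h1 hW0).l.DML_upL (opZ hx hF h0 h1 hW0).e (opZ hx hF h0 h1 hW0).e_pos).mp h1'

end

/-- **FULLNESS ON EVENTS, over a partition** -/
theorem OpW.full {g : Sys R r} {s : Sys R m} {W : ∀ k, Setoid (R.F k).Ω} {c : ℝ}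
    {x : ∀ k, FD (R.F k) (Mon (m + 1) D)} (hx : OpW g s W D c x) (hF : Fac g s) (h0 : 0 ≤ c) (h1 : c < 1)
    (hW0 : 1 - c ≤ h (up1 (idl W) g.T) (up1 (idl W) (lA g c))) (hD : 1 ≤ D) (hst : ST D m)
    {T : Sp} (q : Pj T ((lb x).ovr 1 one_pos)) (E : ∀ k, (T.F k).Ω → Prop) (hE : 0 < ul (T.pr E)) :
    m - ul (fun k => avg (T.rest E) (fun k ω => vx s k ((x k).g (q.π k ω)) ((x k).l.p.π (q.π k ω))) k /
      (R.F k).n) / 2 ≤
      h (restL E hE (q.map (up1 (lb x) (s.P.dg 1)))) (restL E hE (q.map (up1 (lb x) s.T))) := by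
  set Z := opZ hx hF h0 h1 hW0 with hZ
  have hopt : (gau s D).Opt (WA W (rp (lA g c))) (WA W (rp (lB g)))
      (rfx x (celW s c h0 (lb x))) :=
    rfx_opt hx.opt' _ (celL_leak hF h0 h1.le (Gau.Ad.dm _ hx.opt'.1))
  have h2 := ev_full Z (fun k => (x k).g) (fun k => (x k).g') (fun k ω ω' a b c d => (x k).meas ω ω' a b c.1 d)
    hD hst hopt (opZ_cl hx hF h0 h1 hW0) (cnv q (celW s c h0 (lb x)) Z.e Z.e_pos) E hE
  have h3 := cnv_h q (celW s c h0 (lb x)) Z.e Z.e_pos E hE (s.P.dg 1) s.T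
  refine le_trans (le_of_eq ?_) (h2.trans h3)
  congr 2
  congr 1
  funext k
  congr 1
  exact sum_push (((imq (cnv q (celW s c h0 (lb x)) Z.e Z.e_pos) E)).fp k)
    (fun ω => vx s k ((x k).g ω) ((x k).l.p.π ω))

end

end Pool.Agent.Helper3.UF
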