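import Pool.Agent.Helper3.UF.Op
import Pool.Agent.Helper52.KP.IcF

/-! LIP_SU: the canonical form of a factor over a label `U` which has no leak at `A(c)` (no condition at `B`):
exact over `U`, full on all events of all extensions, optimal over `U`. Canonical forms over the windows are full on all
events. -/

set_option autoImplicit false

namespace Pool.Agent.Helper3.UF

open Finset Filter Topology Matrix Pool.Agent.Helper69.RK Pool.Agent.Helper31.EC Pool.Agent.Helper40.EL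
open Pool.Agent.Helper31.EC.Sp
open Pool.Agent.Helper95.LF Pool.Agent.Helper3.LF Pool.Agent.Helper48.NS Pool.Agent.Helper89.LX
open Pool.Agent.Helper3.PR
open Pool.Agent.Helper3.SG (Fac)
open Pool.Agent.Helper59.LF (ladd fadd DM_ladd)
open Pool.Agent.Helper59.EV (ST)

noncomputable section

variable {S : Sp} {m r D : ℕ}

/-! ### canonical forms over the windows -/

theorem WA_top (A : Part S) : WA (fun _ => ⊤) A = A := by
  funext k
  unfold WA
  rw [fc_top, bot_sup_eq]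

theorem OpW_top {g : Sys S r} {s : Sys S m} {c : ℝ} {x : ∀ k, FD (S.F k) (Mon (m + 1) D)}
    (hx : (gau s D).Opt (cA g c) (cB g) x) : OpW g s (fun _ => ⊤) D c x := by
  refine ⟨?_, fun _ _ _ _ => trivial⟩
  rw [WA_top, WA_top]
  exact hx

theorem top_hW (g : Sys S r) {c : ℝ} (h0 : 0 ≤ c) (h1 : c ≤ 1) :
    1 - c ≤ h (up1 (idl (fun _ => ⊤)) g.T) (up1 (idl (fun _ => ⊤)) (lA g c)) := by
  have hl : DMc g c (idl (R := S) (fun _ => ⊤)) := SG.triv_DM' S (cA g c) (cB g)
  rw [hl.h_A le_rfl, h_T_A g h0 h1]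

/-- **FULLNESS ON EVENTS** of the canonical forms of a factor, over the windows of the big system -/
theorem can_full {g : Sys S r} {s : Sys S m} (hF : Fac g s) (hD : 1 ≤ D) (hst : ST D m) {c : ℝ} (h0 : 0 ≤ c)
    (h1 : c < 1) {x : ∀ k, FD (S.F k) (Mon (m + 1) D)} (hx : (gau s D).Opt (cA g c) (cB g) x)
    {T : Sp} (q : Pj T ((lb x).ovr 1 one_pos)) (E : ∀ k, (T.F k).Ω → Prop) (hE : 0 < ul (T.pr E)) :
    m - ul (fun k => avg (T.rest E) (fun k ω => vx s k ((x k).g (q.π k ω)) ((x k).l.p.π (q.π k ω))) k /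
      (S.F k).n) / 2 ≤
      h (restL E hE (q.map (up1 (lb x) (s.P.dg 1)))) (restL E hE (q.map (up1 (lb x) s.T))) :=
  (OpW_top hx).full hF h0 h1 (top_hW g h0 h1.le) hD hst q E hE

/-! ### over a label without leak at `A(c)` -/

theorem Fac.pull {g : Sys S r} {s : Sys S m} (hF : Fac g s) {R : Sp} (p : Pj R S) : Fac (g.pull p) (s.pull p) where
  ft := congrArg p.vv hF.ft
  fxi := by
    have h1 := p.map_mono hF.fxi
    have e1 : (s.pull p).xi 1 = p.map (s.xi 1) := by
      show (p.vv s.a).dg 1 ⊔ (p.vv s.x).dg 1 = p.map (s.a.dg 1 ⊔ s.x.dg 1)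
      rw [p.map_sup, p.map_dg, p.map_dg]
    have e2 : (g.pull p).xi 1 = p.map (g.xi 1) := by
      show (p.vv g.a).dg 1 ⊔ (p.vv g.x).dg 1 = p.map (g.a.dg 1 ⊔ g.x.dg 1)
      rw [p.map_sup, p.map_dg, p.map_dg]
    rw [e1, e2]
    exact h1
  fP := by
    have h1 := p.map_mono hF.fP
    have e1 : (s.pull p).P.dg 1 = p.map (s.P.dg 1) := (p.map_dg s.P 1).symm
    have e2 : lB (g.pull p) = p.map (lB g) := by
      show (p.vv g.P).dg 1 ⊔ (p.vv g.t).dg 1 = p.map (g.P.dg 1 ⊔ g.t.dg 1)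
      rw [p.map_sup, p.map_dg, p.map_dg]
    rw [e1, e2]
    exact h1

theorem up1_idl (U : Lab S) (y : S.L) : up1 (idl U.V) (U.pj.map y) = up1 U y := by
  induction y using cl_ind with | _ A
  rfl

theorem U_hW (g : Sys S r) {c : ℝ} (h0 : 0 ≤ c) (h1 : c ≤ 1) (U : Lab S)
    (hU : Nul S (fun k => (U k).leak (cA g c k))) :
    1 - c ≤ h (up1 (idl U.V) (g.pull U.pj).T) (up1 (idl U.V) (lA (g.pull U.pj) c)) := by
  have e1 : (g.pull U.pj).T = U.pj.map g.T := (U.pj.map_dg g.t 1).symm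
  have e2 : lA (g.pull U.pj) c = U.pj.map (lA g c) := by
    show ((U.pj.vv g.a).dg 1 ⊔ (U.pj.vv g.x).dg 1) ⊔ (U.pj.vv g.t).dg c =
      U.pj.map ((g.a.dg 1 ⊔ g.x.dg 1) ⊔ g.t.dg c)
    rw [U.pj.map_sup, U.pj.map_sup, U.pj.map_dg, U.pj.map_dg, U.pj.map_dg]
  rw [e1, e2, up1_idl, up1_idl]
  have h2 : Nul S (fun k => (U k).leak (rp (lA g c) k)) := by
    have h3 : PLe (cA g c) (rp (lA g c)) := (PLe_lA g c).2
    exact (hU.add h3).of_le (Eventually.of_forall fun _ => FLab.leak_nonneg _ _)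
      (Eventually.of_forall fun k => (U k).leak_le_leak (rp (lA g c) k) (cA g c k))
  have h3 := Lab.h_upL_of_leak 1 one_pos (x := g.T) h2 (le_refl (lA g c))
  rw [div_one] at h3
  have h4 : h (up1 U g.T) (up1 U (lA g c)) = h g.T (lA g c) := h3
  exact le_of_eq ((h_T_A g h0 h1).symm.trans h4.symm)

/-- leak of a label over a label, as a label of the space -/
theorem fin_down {F : FSp} (u : FLab F) (l : FLab u.T) (hV : l.p.map u.v ≤ l.v) (y : FL F) :
    (FLab.down u.p u.hn l).leak y ≤ u.leak y + l.leak (u.v ⊔ u.p.map y) := by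
  have h0 : (FLab.down u.p u.hn l).leak y = I l.v (l.p.map u.p.top) (l.p.map (u.p.map y)) := by
    induction y using fc_ind
    rfl
  have h1 : I (l.p.map u.v ⊔ l.v) (l.p.map u.p.top) (l.p.map (u.p.map y)) =
      I (l.p.map u.v) (l.p.map u.p.top) (l.p.map (u.p.map y)) +
      I l.v (l.p.map u.p.top) (l.p.map u.v ⊔ l.p.map (u.p.map y)) := I_chain _ _ _ _
  have h2 : I (l.p.map u.v) (l.p.map u.p.top) (l.p.map (u.p.map y)) = u.leak y := l.p.I_map _ _ _
  rw [sup_eq_right.mpr hV, h2, ← l.p.map_sup] at h1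
  rw [h0, h1]
  have h3 : I l.v (l.p.map u.p.top) (l.p.map (u.v ⊔ u.p.map y)) ≤ l.leak (u.v ⊔ u.p.map y) :=
    I_mono_right ((l.p.map_le_top _).trans le_sup_left)
  linarith

/-- THE FORMS OVER `U` -/
def SU (g : Sys S r) (s : Sys S m) (U : Lab S) (D : ℕ) (c : ℝ) (x : ∀ k, FD (U.sp.F k) (Mon (m + 1) D)) : Prop :=
  OpW (g.pull U.pj) (s.pull U.pj) U.V D c x

theorem exists_SU (g : Sys S r) (s : Sys S m) (U : Lab S) (D : ℕ) (c : ℝ) : ∃ x, SU g s U D c x :=
  exists_OpW _ _ _ _ _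

/-- the form over `U` as a label of the system with a form: `T_k` is the space of `x k`, `r_k` is `(x k).l.p` -/
def toS (U : Lab S) (x : ∀ k, FD (U.sp.F k) (Mon (m + 1) D)) (k : ℕ) : FD (S.F k) (Mon (m + 1) D) where
  l := (Lab.down U.pj (lb x)) k
  g := (x k).g
  g' := (x k).g'
  meas := fun ω ω' a b c d => (x k).meas ω ω' a b c d

section

variable {g : Sys S r} {s : Sys S m} {U : Lab S} {c : ℝ} {x : ∀ k, FD (U.sp.F k) (Mon (m + 1) D)}
  (hx : SU g s U D c x)

/-- the projection to the space of `U` -/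
def rU (U : Lab S) (x : ∀ k, FD (U.sp.F k) (Mon (m + 1) D)) (k : ℕ) : FPj (toS U x k).l.T (U k).T := (x k).l.p

theorem rU_p (k : ℕ) (ω : (toS U x k).l.T.Ω) : (toS U x k).l.p.π ω = (U k).p.π ((rU U x k).π ω) := rfl

include hx in
/-- the label is literally finer than `U` -/
theorem SU.lt (k : ℕ) (ω ω' : (toS U x k).l.T.Ω) (h : (toS U x k).l.V ω ω') :
    (U k).V ((rU U x k).π ω) ((rU U x k).π ω') := OpW.lt hx k ω ω' h

include hx in
/-- (ii) exact over `U`, given `B` -/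
theorem SU.exact : Nul S (fun k => (x k).l.leak ((U k).v ⊔ (U k).p.map (cB g k))) := by
  have h1 := (Lab.nul_pj U.pj).mp (Gau.Ad.dm _ (OpW.opt hx).1).2
  rw [← Pool.Agent.Helper52.KP.cB_pull] at h1
  exact h1

include hx in
/-- exact over `U`, given `A(c)` -/
theorem SU.exactA : Nul S (fun k => (x k).l.leak ((U k).v ⊔ (U k).p.map (cA g c k))) := by
  have h1 := (Lab.nul_pj U.pj).mp (Gau.Ad.dm _ (OpW.opt hx).1).1
  rw [← Pool.Agent.Helper52.KP.cA_pull] at h1
  exact h1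

include hx in
/-- (i) no leak at `A(c)` -/
theorem SU.leakA (hU : Nul S (fun k => (U k).leak (cA g c k))) :
    Nul S (fun k => (toS U x k).l.leak (cA g c k)) := by
  apply (hU.add hx.exactA).of_le (Eventually.of_forall fun _ => FLab.leak_nonneg _ _)
  refine Eventually.of_forall fun k => ?_
  exact fin_down (U k) (x k).l ((OpW.lt hx).le k) (cA g c k)

include hx in
/-- (iii) bounded at the points of the factor -/
theorem SU.typ : ∃ K : ℕ → ℝ, S.Sub K ∧ Tendsto (fun k => (toS U x k).l.T.pb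
    (fun ω => ¬ sph s D k ((toS U x k).l.p.π ω) ((toS U x k).g ω) ≤ K k)) UF (𝓝 0) := by
  obtain ⟨K, hK, h1⟩ := Pool.Agent.Helper59.EV.Ad_typ (OpW.opt hx).1
  refine ⟨K, ?_, ?_⟩
  · refine ⟨hK.1, ?_⟩
    have h2 := hK.2
    refine h2.congr fun k => ?_
    congr 1
    exact (U k).hn
  · refine h1.congr fun k => ?_
    congr 1
    funext ω
    have e1 : U.sp.dl 1 k = S.dl 1 k := Pool.Agent.Helper59.EV.sp_dl U 1 k
    have e2 : sph (s.pull U.pj) D k ((x k).l.p.π ω) ((x k).g ω) = sph s D k ((toS U x k).l.p.π ω) ((x k).g ω) := by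
      unfold sph
      rw [e1]
      rfl
    rw [e2]
    rfl

end

end

end Pool.Agent.Helper3.UF
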