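import Pool.Agent.Helper3.UF.Cell

/-! LIP_SU, statements over the system: fullness on events, domination, gradients, the window of the line. -/

set_option autoImplicit false

namespace Pool.Agent.Helper3.UF

open Finset Filter Topology Matrix Pool.Agent.Helper69.RK Pool.Agent.Helper31.EC Pool.Agent.Helper40.EL
open Pool.Agent.Helper31.EC.Sp
open Pool.Agent.Helper95.LF Pool.Agent.Helper3.LF Pool.Agent.Helper48.NS Pool.Agent.Helper89.LX
open Pool.Agent.Helper3.PR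
open Pool.Agent.Helper3.SG (Fac)
open Pool.Agent.Helper59.EV (ST)

noncomputable section

variable {S : Sp} {m r D : ℕ}

/-- entropies over a label, on an event of the space of the label, in terms of partitions -/
theorem h_rest_up1 (l : Lab S) (E : ∀ k, (l k).T.Ω → Prop)
    (hE : 0 < ul ((l.ovr 1 one_pos).pr E)) (A B : S.Inf) :
    h (restL (S := l.ovr 1 one_pos) E hE (up1 l (cl A))) (restL (S := l.ovr 1 one_pos) E hE (up1 l (cl B))) =
      ul (fun k => ((l k).T.rest (E k)).e (Setoid.comap (l k).p.π (A.1 k))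
        (Setoid.comap (l k).p.π (B.1 k) ⊓ ((l k).V ⊓ (l k).T.Z)) / (S.F k).n) := by
  have h1 : h (restL (S := l.ovr 1 one_pos) E hE (up1 l (cl A)))
      (restL (S := l.ovr 1 one_pos) E hE (up1 l (cl B))) =
      h (cl (restI (S := l.ovr 1 one_pos) E (l.upI 1 one_pos A)))
        (cl (restI (S := l.ovr 1 one_pos) E (l.upI 1 one_pos B))) := rfl
  rw [h1, h_cl]
  congr 1
  funext k
  have hn : (((l.ovr 1 one_pos).rest E).F k).n = (S.F k).n := by
    have h2 : (((l.ovr 1 one_pos).rest E).F k).n = 1 * (l k).T.n := rfl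
    rw [h2, one_mul, (l k).hn]
  unfold Sp.rt
  rw [hn]
  rfl

theorem vx_pull (s : Sys S m) (U : Lab S) (k : ℕ) (M : Matrix (Mon (m + 1) D) (Mon (m + 1) D) ℝ)
    (ω : (U k).T.Ω) : vx (s.pull U.pj) k M ω = vx s k M ((U k).p.π ω) := by
  have e1 : U.sp.dl 1 k = S.dl 1 k := sp_dl U 1 k
  have e2 : vx (s.pull U.pj) k M ω = Real.logb 2 (GG (U.sp.dl 1 k) M (ptf s k ((U k).p.π ω))) := rfl
  rw [e2, e1]
  rfl

theorem up1_toS (U : Lab S) (x : ∀ k, FD (U.sp.F k) (Mon (m + 1) D)) (y : S.L) :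
    up1 (lb x) (U.pj.map y) = up1 (lb (toS U x)) y := by
  induction y using cl_ind with | _ A
  rfl

section

variable {g : Sys S r} {s : Sys S m} {U : Lab S} {c : ℝ} {x : ∀ k, FD (U.sp.F k) (Mon (m + 1) D)}
  (hx : SU g s U D c x)

include hx in
/-- **(iv) FULL ON ALL EVENTS OF ALL EXTENSIONS** -/
theorem SU.full (hF : Fac g s) (hD : 1 ≤ D) (hst : ST D m) (h0 : 0 ≤ c) (h1 : c < 1)
    (hU : Nul S (fun k => (U k).leak (cA g c k)))
    {T : Sp} (q : Pj T ((lb (toS U x)).ovr 1 one_pos)) (E : ∀ k, (T.F k).Ω → Prop) (hE : 0 < ul (T.pr E)) :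
    m - ul (fun k => avg (T.rest E) (fun k ω => vx s k ((toS U x k).g (q.π k ω))
      ((toS U x k).l.p.π (q.π k ω))) k / (S.F k).n) / 2 ≤
      h (restL E hE (q.map (up1 (lb (toS U x)) (s.P.dg 1)))) (restL E hE (q.map (up1 (lb (toS U x)) s.T))) := by
  have h2 := OpW.full hx (Fac.pull hF U.pj) h0 h1 (U_hW g h0 h1.le U hU) hD hst q E hE
  have e1 : (s.pull U.pj).P.dg 1 = U.pj.map (s.P.dg 1) := (U.pj.map_dg s.P 1).symm
  have e2 : (s.pull U.pj).T = U.pj.map s.T := (U.pj.map_dg s.t 1).symm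
  have e3 : up1 (lb x) ((s.pull U.pj).P.dg 1) = up1 (lb (toS U x)) (s.P.dg 1) := by
    rw [e1]
    exact up1_toS U x _
  have e4 : up1 (lb x) (s.pull U.pj).T = up1 (lb (toS U x)) s.T := by
    rw [e2]
    exact up1_toS U x _
  have e5 : (fun k => avg (T.rest E) (fun k ω => vx (s.pull U.pj) k ((x k).g (q.π k ω))
      ((x k).l.p.π (q.π k ω))) k / (U.sp.F k).n) = fun k => avg (T.rest E) (fun k ω =>
      vx s k ((toS U x k).g (q.π k ω)) ((toS U x k).l.p.π (q.π k ω))) k / (S.F k).n := by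
    funext k
    have hn : (U.sp.F k).n = (S.F k).n := (U k).hn
    have e6 : ∀ ω : (T.F k).Ω, vx (s.pull U.pj) k ((x k).g (q.π k ω)) ((x k).l.p.π (q.π k ω)) =
        vx s k ((toS U x k).g (q.π k ω)) ((toS U x k).l.p.π (q.π k ω)) := fun ω =>
      vx_pull s U k ((x k).g (q.π k ω)) ((x k).l.p.π (q.π k ω))
    have e7 : avg (T.rest E) (fun k ω => vx (s.pull U.pj) k ((x k).g (q.π k ω)) ((x k).l.p.π (q.π k ω))) k =
        avg (T.rest E) (fun k ω => vx s k ((toS U x k).g (q.π k ω)) ((toS U x k).l.p.π (q.π k ω))) k :=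
      Finset.sum_congr rfl fun ω _ => congrArg (fun z => ((T.rest E).F k).μ ω * z) (e6 ω)
    rw [hn, e7]
  have h3 : m - ul (fun k => avg (T.rest E) (fun k ω => vx s k ((toS U x k).g (q.π k ω))
      ((toS U x k).l.p.π (q.π k ω))) k / (S.F k).n) / 2 ≤
      h (restL E hE (q.map (up1 (lb x) ((s.pull U.pj).P.dg 1))))
        (restL E hE (q.map (up1 (lb x) (s.pull U.pj).T))) := by
    rw [← e5]
    exact h2
  refine h3.trans (le_of_eq ?_)
  exact congrArg₂ (fun a b => h (restL E hE (q.map a)) (restL E hE (q.map b))) e3 e4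

include hx in
/-- (iv) on events of the space of the label, finite form: `E`-averages and entropies in bits -/
theorem SU.full_fin (hF : Fac g s) (hD : 1 ≤ D) (hst : ST D m) (h0 : 0 ≤ c) (h1 : c < 1)
    (hU : Nul S (fun k => (U k).leak (cA g c k))) (E : ∀ k, (toS U x k).l.T.Ω → Prop)
    (hE : 0 < ul (fun k => (toS U x k).l.T.pb (E k))) :
    m - ul (fun k => (∑ ω, ((toS U x k).l.T.rest (E k)).μ ω *
      vx s k ((toS U x k).g ω) ((toS U x k).l.p.π ω)) / (S.F k).n) / 2 ≤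
      ul (fun k => ((toS U x k).l.T.rest (E k)).e
        (Setoid.comap (toS U x k).l.p.π (Setoid.ker (s.P.cellv 1 k)))
        (Setoid.comap (toS U x k).l.p.π (Setoid.ker (s.t.cellv 1 k)) ⊓
          ((toS U x k).l.V ⊓ (toS U x k).l.T.Z)) / (S.F k).n) := by
  have h2 := hx.full hF hD hst h0 h1 hU (Pj.id ((lb (toS U x)).ovr 1 one_pos)) E hE
  rw [Pj.id_map, Pj.id_map] at h2
  have e1 : s.P.dg 1 = cl (s.IP 1) := (s.cl_IP 1).symm
  have e2 : s.T = cl (s.It 1) := (s.cl_It 1).symm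
  have h3 := h_rest_up1 (lb (toS U x)) E hE (s.IP 1) (s.It 1)
  rw [← e1, ← e2] at h3
  exact h2.trans (le_of_eq h3)

include hx in
/-- (v) domination of every form which is exact over `U`: in the join over `U` -/
theorem SU.dom {y : ∀ k, FD (U.sp.F k) (Mon (m + 1) D)}
    (hy : (gau (s.pull U.pj) D).Ad (WA U.V (cA (g.pull U.pj) c)) (WA U.V (cB (g.pull U.pj))) y) (e : ℝ)
    (he : 0 < e) : Tendsto (fun k => ((x k).jj (y k)).l.T.pb (fun w =>
      ¬ ∀ v, qf (((x k).jj (y k)).g' w) v ≤ 2 ^ (e * (S.F k).n) * qf (((x k).jj (y k)).g w) v)) UF (𝓝 0) := by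
  have h1 := Gau.Opt.dom _ (OpW.opt hx) hy e he
  refine h1.congr fun k => ?_
  have hn : (U.sp.F k).n = (S.F k).n := (U k).hn
  rw [hn]

include hx in
/-- (vi) the gradients are at least `2^(c n)` in all space directions -/
theorem SU.cell (hF : Fac g s) (hD : 1 ≤ D) (h0 : 0 ≤ c) (h1 : c < 1)
    (hU : Nul S (fun k => (U k).leak (cA g c k))) (e : ℝ) (he : 0 < e) :
    Tendsto (fun k => (toS U x k).l.T.pb (fun ω =>
    ¬ ∀ v : Fin m → ℝ, 2 ^ ((2 * c - e) * (S.F k).n) * (v ⬝ᵥ v) ≤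
      v ⬝ᵥ (Jf (S.dl 1 k) ((toS U x k).g ω) (ptf s k ((toS U x k).l.p.π ω)) *ᵥ v))) UF (𝓝 0) := by
  have h2 := OpW.cell hx (Fac.pull hF U.pj) h0 h1 (U_hW g h0 h1.le U hU) hD e he
  refine h2.congr fun k => ?_
  have hn : (U.sp.F k).n = (S.F k).n := (U k).hn
  have e1 : U.sp.dl 1 k = S.dl 1 k := sp_dl U 1 k
  rw [hn, e1]
  rfl

include hx in
/-- (vii) the form is bounded on the whole window of the line -/
theorem SU.win (hF : Fac g s) (h0 : 0 ≤ c) (h1 : c < 1) (hU : Nul S (fun k => (U k).leak (cA g c k)))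
    (b : ℝ) (hb : 0 ≤ b) (L : ℕ → ℝ) (hL : S.Sub L) :
    ∃ K' : ℕ → ℝ, S.Sub K' ∧ Sp.Typ (S := (lb (toS U x)).sp) (fun k (ω : (toS U x k).l.T.Ω) =>
      ∀ τ, |τ - s.t.v k ((toS U x k).l.p.π ω) 0| ≤ L k * S.dl (c - b) k →
      phi (S.dl 1 k) ((toS U x k).g ω) (pl (s.a.v k ((toS U x k).l.p.π ω)) (s.x.v k ((toS U x k).l.p.π ω)) τ) ≤
        K' k * 2 ^ ((2 * D : ℕ) * b * (S.F k).n) * sph s D k ((toS U x k).l.p.π ω) ((toS U x k).g ω)) := by
  have hsub : ∀ K : ℕ → ℝ, U.sp.Sub K ↔ S.Sub K := fun K => sp_Sub U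
  obtain ⟨K', hK', h2⟩ := OpW.win hx (Fac.pull hF U.pj) h0 h1 (U_hW g h0 h1.le U hU) b hb L ((hsub L).mpr hL)
  refine ⟨K', (hsub K').mp hK', ?_⟩
  refine typ_mono (S := (lb (toS U x)).sp) h2 ?_
  refine Eventually.of_forall fun k ω _ h3 => ?_
  have hn : (U.sp.F k).n = (S.F k).n := (U k).hn
  have e1 : U.sp.dl 1 k = S.dl 1 k := sp_dl U 1 k
  have e3 : U.sp.dl (c - b) k = S.dl (c - b) k := sp_dl U (c - b) k
  intro τ hτ
  rw [← e3] at hτ
  have h4 := h3 τ hτ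
  have e4 : sph (s.pull U.pj) D k ((x k).l.p.π ω) ((x k).g ω) =
      sph s D k ((toS U x k).l.p.π ω) ((toS U x k).g ω) := by
    unfold sph
    rw [e1]
    rfl
  rw [e4, e1, hn] at h4
  exact h4

end

end

end Pool.Agent.Helper3.UF
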