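import Pool.Agent.Helper3.UF.Top
import Pool.Agent.Helper39.LIP.St

/-! The canonical 1-form of the factor over the pair of labels: the structure `XO` of LIP(A) is inhabited. -/

set_option autoImplicit false

namespace Pool.Agent.Helper3.UF

open Finset Filter Topology Matrix Pool.Agent.Helper69.RK Pool.Agent.Helper31.EC Pool.Agent.Helper40.EL
open Pool.Agent.Helper31.EC.Sp
open Pool.Agent.Helper95.LF Pool.Agent.Helper3.LF Pool.Agent.Helper48.NS Pool.Agent.Helper89.LX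
open Pool.Agent.Helper48.LIP Pool.Agent.Helper39.LIP
open Pool.Agent.Helper3.PR
open Pool.Agent.Helper3.SG (Fac)
open Pool.Agent.Helper59.LF (ladd fadd DM_ladd)
open Pool.Agent.Helper59.EV (ST)

noncomputable section

variable {S : Sp} {m r q D : ℕ}

theorem cp_pull (s : Sys S m) (U : Lab S) (D k : ℕ) : (gau (s.pull U.pj) D).cp k = (gau s D).cp k := by
  have hn : (U.sp.F k).n = (S.F k).n := (U k).hn
  unfold Gau.cp
  rw [hn]
  rfl

theorem sph_pull (s : Sys S m) (U : Lab S) (k : ℕ) (M : Matrix (Mon (m + 1) D) (Mon (m + 1) D) ℝ)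
    (ω : (U k).T.Ω) : sph (s.pull U.pj) D k ω M = sph s D k ((U k).p.π ω) M := by
  have e1 : U.sp.dl 1 k = S.dl 1 k := sp_dl U 1 k
  unfold sph
  rw [e1]
  rfl

theorem SU.cpd {g : Sys S r} {s : Sys S m} {U : Lab S} {c : ℝ} {x : ∀ k, FD (U.sp.F k) (Mon (m + 1) D)}
    (hx : SU g s U D c x) : ∀ᶠ k in UF, ∀ ω, (toS U x k).l.T.μ ω ≠ 0 →
    Cpd ((gau s D).cp k) ((toS U x k).g ω) := by
  filter_upwards [(OpW.opt hx).1 1 one_pos] with k hk ω hω
  have h1 := (hk.2.2.1 ω hω).1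
  rw [cp_pull] at h1
  exact h1

theorem SU.phi {g : Sys S r} {s : Sys S m} {U : Lab S} {c : ℝ} {x : ∀ k, FD (U.sp.F k) (Mon (m + 1) D)}
    (hx : SU g s U D c x) (e : ℝ) (he : 0 < e) : ∀ᶠ k in UF, (toS U x k).l.T.pb (fun ω =>
    ¬ sph s D k ((toS U x k).l.p.π ω) ((toS U x k).g ω) ≤ 2 ^ (e * (S.F k).n)) ≤ e := by
  filter_upwards [(OpW.opt hx).1 e he] with k hk
  have hn : (U.sp.F k).n = (S.F k).n := (U k).hn
  refine le_trans (FSp.pb_mono _ ?_) hk.2.2.2.1
  intro ω _ h1 h2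
  apply h1
  have h3 : sph (s.pull U.pj) D k ((x k).l.p.π ω) ((x k).g ω) ≤ 2 ^ (e * (U.sp.F k).n) := h2
  rw [hn] at h3
  exact (sph_pull s U k ((x k).g ω) ((x k).l.p.π ω)).symm.le.trans h3

/-! ### fullness on events of extensions, finite form -/

section full

variable {g : Sys S r} {s : Sys S m} {U : Lab S} {c : ℝ} {x : ∀ k, FD (U.sp.F k) (Mon (m + 1) D)}
  (hx : SU g s U D c x)

/-- the extensions of the space of the label, over the label -/
def extT (T : ℕ → FSp) (hn : ∀ k, (T k).n = (S.F k).n) : Sp :=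
  ⟨T, S.lim.congr' (Eventually.of_forall fun k => (hn k).symm)⟩

def extP (l : Lab S) (T : ℕ → FSp) (ρ : ∀ k, FPj (T k) (l k).T) (hn : ∀ k, (T k).n = (S.F k).n) :
    Pj ((extT T hn).chg (fun k => Setoid.comap (ρ k).π (l k).V) 1 one_pos) (l.ovr 1 one_pos) where
  π := fun k => (ρ k).π
  law := fun k => (ρ k).law
  hZ := fun k ω ω' a b => by
    have h1 := (ρ k).hZ ω ω' a b
    constructor
    · intro h2
      exact ⟨h2.1, h1.mp h2.2⟩
    · intro h2
      exact ⟨h2.1, h1.mpr h2.2⟩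
  hn := fun k => by
    show 1 * (T k).n = 1 * (l k).T.n
    rw [hn k, (l k).hn]

/-- entropies over a label, on an event of an extension, in terms of partitions -/
theorem rt_rest_ext (l : Lab S) (T : ℕ → FSp) (ρ : ∀ k, FPj (T k) (l k).T) (hn : ∀ k, (T k).n = (S.F k).n)
    (E : ∀ k, (T k).Ω → Prop) (A B : S.Inf) :
    (((extT T hn).chg (fun k => Setoid.comap (ρ k).π (l k).V) 1 one_pos).rest E).rt
      (restI (S := (extT T hn).chg (fun k => Setoid.comap (ρ k).π (l k).V) 1 one_pos) E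
        ((extP l T ρ hn).mapI (l.upI 1 one_pos A))).1
      (restI (S := (extT T hn).chg (fun k => Setoid.comap (ρ k).π (l k).V) 1 one_pos) E
        ((extP l T ρ hn).mapI (l.upI 1 one_pos B))).1 =
      fun k => h ((T k).rmap (E k) ((ρ k).map ((l k).p.map (rpI A k))))
        ((T k).rmap (E k) ((ρ k).map (l k).v) ⊔ (T k).rmap (E k) ((ρ k).map ((l k).p.map (rpI B k)))) /
          (S.F k).n := by
  set T1 := (extT T hn).chg (fun k => Setoid.comap (ρ k).π (l k).V) 1 one_pos with hT1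
  funext k
  have hn' : ((T1.rest E).F k).n = (S.F k).n := by
    have h2 : ((T1.rest E).F k).n = 1 * (T k).n := rfl
    rw [h2, one_mul, hn k]
  unfold Sp.rt
  rw [hn']
  congr 1
  have e1 : (T k).rmap (E k) ((ρ k).map (l k).v) ⊔ (T k).rmap (E k) ((ρ k).map ((l k).p.map (rpI B k))) =
      fc (F := (T k).rest (E k)) (Setoid.comap (ρ k).π (l k).V ⊓
        Setoid.comap (ρ k).π (Setoid.comap (l k).p.π (B.1 k))) := rfl
  have e2 : (T k).rmap (E k) ((ρ k).map ((l k).p.map (rpI A k))) =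
      fc (F := (T k).rest (E k)) (Setoid.comap (ρ k).π (Setoid.comap (l k).p.π (A.1 k))) := rfl
  rw [e1, e2, h_fc]
  apply ((T k).rest (E k)).e_congr_right
  intro ω ω' _ _
  constructor
  · intro h
    exact ⟨⟨h.2.1, h.1⟩, h.2.2⟩
  · intro h
    exact ⟨h.1.2, h.1.1, h.2⟩

theorem h_rest_ext (l : Lab S) (T : ℕ → FSp) (ρ : ∀ k, FPj (T k) (l k).T) (hn : ∀ k, (T k).n = (S.F k).n)
    (E : ∀ k, (T k).Ω → Prop)
    (hE : 0 < ul (((extT T hn).chg (fun k => Setoid.comap (ρ k).π (l k).V) 1 one_pos).pr E)) (A B : S.Inf) :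
    h (restL (S := (extT T hn).chg (fun k => Setoid.comap (ρ k).π (l k).V) 1 one_pos) E hE
        ((extP l T ρ hn).map (up1 l (cl A))))
      (restL (S := (extT T hn).chg (fun k => Setoid.comap (ρ k).π (l k).V) 1 one_pos) E hE
        ((extP l T ρ hn).map (up1 l (cl B)))) =
      ul (fun k => h ((T k).rmap (E k) ((ρ k).map ((l k).p.map (rpI A k))))
        ((T k).rmap (E k) ((ρ k).map (l k).v) ⊔ (T k).rmap (E k) ((ρ k).map ((l k).p.map (rpI B k)))) /
          (S.F k).n) := by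
  rw [← rt_rest_ext l T ρ hn E A B]
  exact h_cl _ _

include hx in
/-- **FULL ON ALL EVENTS OF ALL EXTENSIONS**, finite form -/
theorem SU.full_ev (hF : Fac g s) (hD : 1 ≤ D) (hst : ST D m) (h0 : 0 ≤ c) (h1 : c < 1)
    (hU : Nul S (fun k => (U k).leak (cA g c k)))
    (T : ℕ → FSp) (ρ : ∀ k, FPj (T k) (toS U x k).l.T) (hn : ∀ k, (T k).n = (S.F k).n)
    (E : ∀ k, (T k).Ω → Prop) (hE : 0 < ul (fun k => (T k).pb (E k))) (e : ℝ) (he : 0 < e) :
    ∀ᶠ k in UF, (m - e) * (S.F k).n - (1 / 2) * ∑ ω, ((T k).rest (E k)).μ ω * Real.logb 2 (GG (S.dl 1 k)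
        ((toS U x k).g ((ρ k).π ω)) (ptf s k ((toS U x k).l.p.π ((ρ k).π ω)))) ≤
      h ((T k).rmap (E k) ((ρ k).map ((toS U x k).l.p.map (qP s k))))
        ((T k).rmap (E k) ((ρ k).map (toS U x k).l.v) ⊔
          (T k).rmap (E k) ((ρ k).map ((toS U x k).l.p.map (qT s k)))) := by
  set l : Lab S := lb (toS U x) with hl
  set T1 := (extT T hn).chg (fun k => Setoid.comap (ρ k).π (l k).V) 1 one_pos with hT1
  have hE1 : 0 < ul (T1.pr E) := hE
  have h2 := hx.full hF hD hst h0 h1 hU (T := T1) (extP l T ρ hn) E hE1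
  have e1 : s.P.dg 1 = cl (s.IP 1) := (s.cl_IP 1).symm
  have e2 : s.T = cl (s.It 1) := (s.cl_It 1).symm
  have h3 := h_rest_ext l T ρ hn E hE1 (s.IP 1) (s.It 1)
  rw [← e1, ← e2] at h3
  have h4 : m - ul (fun k => avg (T1.rest E) (fun k ω => vx s k ((toS U x k).g ((ρ k).π ω))
      ((toS U x k).l.p.π ((ρ k).π ω))) k / (S.F k).n) / 2 ≤
      ul (fun k => h ((T k).rmap (E k) ((ρ k).map ((l k).p.map (rpI (s.IP 1) k))))
        ((T k).rmap (E k) ((ρ k).map (l k).v) ⊔ (T k).rmap (E k) ((ρ k).map ((l k).p.map (rpI (s.It 1) k)))) /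
          (S.F k).n) := h2.trans h3.le
  have u2 : UB (fun k => h ((T k).rmap (E k) ((ρ k).map ((l k).p.map (rpI (s.IP 1) k))))
        ((T k).rmap (E k) ((ρ k).map (l k).v) ⊔ (T k).rmap (E k) ((ρ k).map ((l k).p.map (rpI (s.It 1) k)))) /
          (S.F k).n) := by
    have h7 := rt_rest_ext l T ρ hn E (s.IP 1) (s.It 1)
    exact (congrArg UB h7).mp (UB_rt _ _)
  have hnT : ∀ k, ((T1.rest E).F k).n = (S.F k).n := fun k => by
    have h2 : ((T1.rest E).F k).n = 1 * (T k).n := rfl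
    rw [h2, one_mul, hn k]
  obtain ⟨C, hC, hub⟩ := logGG_ub s D
  have hcp : ∀ᶠ k in UF, ∀ ω, (T k).μ ω ≠ 0 → Cpd ((gau s D).cp k) ((toS U x k).g ((ρ k).π ω)) := by
    filter_upwards [SU.cpd hx] with k hk ω hω
    exact hk _ ((ρ k).supp ω hω)
  have u1 : UB (fun k => avg (T1.rest E) (fun k ω => vx s k ((toS U x k).g ((ρ k).π ω))
      ((toS U x k).l.p.π ((ρ k).π ω))) k / (S.F k).n) := by
    have h5 : UB (fun k => avg (T1.rest E) (fun k ω => vx s k ((toS U x k).g ((ρ k).π ω))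
        ((toS U x k).l.p.π ((ρ k).π ω))) k / ((T1.rest E).F k).n) := by
      apply avg_UB (C := C)
      filter_upwards [hcp, hub] with k a b ω hω
      have a1 := a ω ((T k).rest_supp (E k) ω hω).1
      refine ⟨logGG_nonneg _ a1.pdM _, ?_⟩
      rw [hnT k]
      exact b _ ((toS U x k).l.p.supp _ ((ρ k).supp _ ((T k).rest_supp (E k) ω hω).1)) _ a1
    have h6 : (fun k => avg (T1.rest E) (fun k ω => vx s k ((toS U x k).g ((ρ k).π ω))
        ((toS U x k).l.p.π ((ρ k).π ω))) k / ((T1.rest E).F k).n) =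
        fun k => avg (T1.rest E) (fun k ω => vx s k ((toS U x k).g ((ρ k).π ω))
        ((toS U x k).l.p.π ((ρ k).π ω))) k / (S.F k).n := by
      funext k
      rw [hnT k]
    rwa [h6] at h5
  have v1 := eventually_gt_of_lt_ul u1 (sub_lt_self _ he)
  have v2 := eventually_gt_of_lt_ul u2 (sub_lt_self _ (half_pos he))
  filter_upwards [v1, v2] with k a b
  have hnk := (S.F k).pos
  rw [lt_div_iff₀ hnk] at a
  rw [lt_div_iff₀ hnk] at b
  have e3 : avg (T1.rest E) (fun k ω => vx s k ((toS U x k).g ((ρ k).π ω))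
      ((toS U x k).l.p.π ((ρ k).π ω))) k = ∑ ω, ((T k).rest (E k)).μ ω * Real.logb 2 (GG (S.dl 1 k)
        ((toS U x k).g ((ρ k).π ω)) (ptf s k ((toS U x k).l.p.π ((ρ k).π ω)))) := rfl
  rw [e3] at a
  have e4 : rpI (s.IP 1) k = qP s k := rfl
  have e5 : rpI (s.It 1) k = qT s k := rfl
  rw [e4, e5] at b
  refine le_trans ?_ b.le
  have h8 := mul_le_mul_of_nonneg_right h4 hnk.le
  linarith

end full

/-! ### domination of the form of the window -/

section dom

variable {s : Sys S m} {s' : Sys S q} {ι : Type} (x : ∀ k, FD (S.F k) ι)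
  (x' : ∀ k, FD (S.F k) (Mon (q + 1) 1)) (c : ℝ)

/-- the label of the window is known to the pair -/
theorem pK_le (k : ℕ) : (fc (Setoid.comap (pK s x (lb x') c k).π (x' k).l.V) : FL (Lab3 s x (lb x') c k).T) ≤
    (Lab3 s x (lb x') c k).v := by
  have h1 := K_common ((x k).jn (x' k).l).l (jK (x k) (x' k).l) (cAs s c k)
  have h2 : (fc (Setoid.comap (pK s x (lb x') c k).π (x' k).l.V) : FL (Lab3 s x (lb x') c k).T) =
      (fam3 ((x k).jn (x' k).l).l (jK (x k) (x' k).l) (cAs s c k)).p2.map (fc (jK (x k) (x' k).l)) := rfl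
  rw [h2, ← h1]
  have h3 : (Lab3 s x (lb x') c k).v = k1 ((x k).jn (x' k).l).l (jK (x k) (x' k).l) (cAs s c k) ⊔
      k2 ((x k).jn (x' k).l).l (jK (x k) (x' k).l) (cAs s c k) := rfl
  rw [h3]
  refine le_trans ?_ le_sup_left
  exact (fam3 _ _ _).p1.map_mono ((pam _ _ _).p1.map_mono (fc_mono (jK_le (x k) (x' k).l)))

variable (y : ∀ k, FD ((Lab3 s x (lb x') c).sp.F k) (Mon (q + 1) 1))

/-- the partition of the label of the window on the space of a label over the pair -/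
def wW (k : ℕ) : Setoid (y k).l.T.Ω := Setoid.comap (fun ω => (pK s x (lb x') c k).π ((y k).l.p.π ω)) (x' k).l.V

/-- the form of the window on the space of a label over the pair -/
def wF (k : ℕ) : FD ((Lab3 s x (lb x') c).sp.F k) (Mon (q + 1) 1) where
  l := fadd (y k).l (wW x x' c y k)
  g := fun ω => (x' k).g ((pK s x (lb x') c k).π ((y k).l.p.π ω))
  g' := fun ω => (x' k).g ((pK s x (lb x') c k).π ((y k).l.p.π ω))
  meas := fun ω ω' a b hV hZ => by
    have a1 := (y k).l.p.supp ω a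
    have b1 := (y k).l.p.supp ω' b
    have h1 : (x' k).g ((pK s x (lb x') c k).π ((y k).l.p.π ω)) = (x' k).g ((pK s x (lb x') c k).π ((y k).l.p.π ω')) :=
      ((x' k).meas _ _ ((pK s x (lb x') c k).supp _ a1) ((pK s x (lb x') c k).supp _ b1) hV.2
        (((pK s x (lb x') c k).hZ _ _ a1 b1).mp (((y k).l.p.hZ ω ω' a b).mp hZ))).1
    exact ⟨h1, h1⟩

theorem wF_ad {A B : Part (Lab3 s x (lb x') c).sp} (hA : ∀ k, (Lab3 s x (lb x') c k).v ≤ A k)
    (hB : ∀ k, (Lab3 s x (lb x') c k).v ≤ B k) {A' B' : Part S} (hx' : (gau s' 1).Ad A' B' x')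
    (hy : (gau (s'.pull (Lab3 s x (lb x') c).pj) 1).Ad A B y) :
    (gau (s'.pull (Lab3 s x (lb x') c).pj) 1).Ad A B (wF x x' c y) := by
  have key : ∀ A : Part (Lab3 s x (lb x') c).sp, (∀ k, (Lab3 s x (lb x') c k).v ≤ A k) →
      Nul (Lab3 s x (lb x') c).sp (fun k => h (fc (wW x x' c y k)) ((lb y k).v ⊔ (lb y k).p.map (A k))) := by
    intro A hA
    have h1 : (fun k => h (fc (wW x x' c y k)) ((lb y k).v ⊔ (lb y k).p.map (A k))) = fun _ => 0 := by
      funext k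
      apply h_zero
      have h2 : (fc (wW x x' c y k) : FL (y k).l.T) =
        (y k).l.p.map (fc (Setoid.comap (pK s x (lb x') c k).π (x' k).l.V)) := rfl
      rw [h2]
      exact le_trans ((y k).l.p.map_mono ((pK_le x x' c k).trans (hA k))) le_sup_right
    rw [h1]
    exact Nul_zero _
  have hdm : Lab.DM (fun k => fadd (y k).l (wW x x' c y k)) A B :=
    DM_ladd (Gau.Ad.dm _ hy) (wW x x' c y) (key A hA) (key B hB)
  intro η hη
  filter_upwards [hdm.1.eventually (gt_mem_nhds hη), hdm.2.eventually (gt_mem_nhds hη), hx' η hη] with k a b d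
  have hn := ((Lab3 s x (lb x') c).sp.F k).pos
  rw [div_lt_iff₀ hn] at a b
  have hphi : (y k).l.T.pb (fun ω => ¬ (gau (s'.pull (Lab3 s x (lb x') c).pj) 1).φ k ((y k).l.p.π ω)
      ((x' k).g ((pK s x (lb x') c k).π ((y k).l.p.π ω))) ≤ 2 ^ (η * ((Lab3 s x (lb x') c).sp.F k).n)) ≤ η := by
    have h1 := pb_push ((y k).l.p) (fun ω => ¬ (gau (s'.pull (Lab3 s x (lb x') c).pj) 1).φ k ω
      ((x' k).g ((pK s x (lb x') c k).π ω)) ≤ 2 ^ (η * ((Lab3 s x (lb x') c).sp.F k).n))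
    have h2 := pb_push (pK s x (lb x') c k) (fun ω => ¬ (gau s' 1).φ k ((x' k).l.p.π ω)
      ((x' k).g ω) ≤ 2 ^ (η * (S.F k).n))
    refine h1.le.trans (le_trans (FSp.pb_mono _ ?_) (h2.le.trans d.2.2.2.1))
    intro ω hω h3 h4
    apply h3
    have e1 : ((Lab3 s x (lb x') c).sp.F k).n = (S.F k).n := (Lab3 s x (lb x') c k).hn
    have e2 := pK_pt s x (lb x') c k ω hω
    have e3 : (gau (s'.pull (Lab3 s x (lb x') c).pj) 1).φ k ω ((x' k).g ((pK s x (lb x') c k).π ω)) =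
        sph s' 1 k ((Lab3 s x (lb x') c k).p.π ω) ((x' k).g ((pK s x (lb x') c k).π ω)) := sph_pull s' (Lab3 s x (lb x') c) k _ ω
    have e4 : (x' k).l.p.π ((pK s x (lb x') c k).π ω) = (Lab3 s x (lb x') c k).p.π ω := e2
    rw [e3, e1, ← e4]
    exact h4
  have hcp : ∀ ω, (y k).l.T.μ ω ≠ 0 → Cpd ((gau (s'.pull (Lab3 s x (lb x') c).pj) 1).cp k)
      ((x' k).g ((pK s x (lb x') c k).π ((y k).l.p.π ω))) := by
    intro ω hω
    rw [cp_pull]
    exact (d.2.2.1 _ ((pK s x (lb x') c k).supp _ ((y k).l.p.supp ω hω))).1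
  exact ⟨a.le, b.le, fun ω hω => ⟨hcp ω hω, hcp ω hω⟩, hphi, hphi⟩

end dom

theorem qT_fac {s : Sys S m} {s' : Sys S q} (hF : Fac s s') : qT s' = qT s := by
  have h1 : ∀ t : VV S 1, ∀ h : s'.t = t, qT s' = rpI (t.bdd 1).toInf := by
    intro t h
    subst h
    rfl
  exact h1 s.t hF.ft

/-- **THE CANONICAL 1-FORM OF THE FACTOR OVER THE PAIR OF LABELS** -/
theorem exists_XO {s : Sys S m} {s' : Sys S q} (hF : Fac s s') (hst : ST 1 q) {c : ℝ} (h0 : 0 ≤ c) (h1 : c < 1)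
    {ι : Type} (x : ∀ k, FD (S.F k) ι) {x' : ∀ k, FD (S.F k) (Mon (q + 1) 1)}
    (hx' : (gau s' 1).Ad (cA s c) (cB s) x') (hK : IsKap s c (lb x')) : Nonempty (XO s s' x x' c) := by
  set U : Lab S := Lab3 s x (lb x') c with hU
  have hUA : Nul S (fun k => (U k).leak (cA s c k)) := Lab3_leakA s x hK
  obtain ⟨y, hy⟩ := exists_SU s s' U 1 c
  refine ⟨⟨toS U y, rU U y, fun _ => rfl, fun k ω ω' g => SU.lt hy k ω ω' g, SU.leakA hy hUA, ?_, SU.cpd hy,
    SU.phi hy, ?_, ?_⟩⟩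
  · exact SU.exact hy
  · intro T ρ hn E hE e he
    have e1 : qT s' = qT s := qT_fac hF
    have h2 := hy.full_ev hF le_rfl hst h0 h1 hUA T ρ hn E hE e he
    rw [e1] at h2
    exact h2
  · intro e he
    have h2 := wF_ad (s := s) x x' c y (A := WA U.V (cA (s.pull U.pj) c)) (B := WA U.V (cB (s.pull U.pj)))
      (fun k => le_sup_left) (fun k => le_sup_left) hx' (OpW.opt hy).1
    have h3 := dom_ext (OpW.opt hy) h2 (fun k => (Pj.id (lb y).sp).fp k) (fun _ _ _ => rfl) (fun k ω ω' g => g.1) e he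
    refine h3.congr fun k => ?_
    have e1 : (U.sp.F k).n = (S.F k).n := (U k).hn
    rw [e1]
    rfl

end

end Pool.Agent.Helper3.UF
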