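import Pool.Agent.Helper3.SG.Eta
import Pool.Agent.Helper3.ZM.Win

/-! Zoom of a system over a label over which the heights are full given the line (no condition on the leaks). -/

set_option autoImplicit false

namespace Pool.Agent.Helper3.UF

open Finset Filter Topology Matrix Pool.Agent.Helper69.RK Pool.Agent.Helper31.EC Pool.Agent.Helper40.EL
open Pool.Agent.Helper31.EC.Sp
open Pool.Agent.Helper95.LF Pool.Agent.Helper3.LF Pool.Agent.Helper48.NS Pool.Agent.Helper89.LX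
open Pool.Agent.Helper3.PR
open Pool.Agent.Helper3.ZM (aff afs afm phi_afm gam_afm afm_symm afm_nonneg GG_gain VV_ext cellv_pj' triv_DM h_kap)

noncomputable section

variable {S : Sp} {m r : ℕ}

/-- a label whose base knows the cells of the height and of the point, and over which the height is full given the
line -/
structure ZT (s : Sys S m) where
  l : Lab S
  c : ℝ
  h0 : 0 ≤ c
  h1 : c < 1
  h_T : h (up1 l s.T) (up1 l (s.xi 1)) = 1 - c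
  cell : ∀ k ω ω', (l k).T.μ ω ≠ 0 → (l k).T.μ ω' ≠ 0 → (l k).V ω ω' → (l k).T.Z ω ω' →
    s.t.cellv c k ((l k).p.π ω) = s.t.cellv c k ((l k).p.π ω') ∧
    (s.bc c h0).cellv c k ((l k).p.π ω) = (s.bc c h0).cellv c k ((l k).p.π ω')

namespace ZT

variable {s : Sys S m} (Z : ZT s)

/-- relative depth -/
def e : ℝ := 1 - Z.c

theorem e_pos : 0 < Z.e := by
  have := Z.h1
  unfold e; linarith

theorem e_le : Z.e ≤ 1 := by
  have := Z.h0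
  unfold e; linarith

theorem c_add_e : Z.c + Z.e = 1 := by unfold e; ring

/-- the space of the zoom -/
def sp : Sp := Z.l.ovr Z.e Z.e_pos

theorem sp_n (k : ℕ) : (Z.sp.F k).n = Z.e * (S.F k).n := Z.l.n_over Z.e Z.e_pos k

theorem sp_dl' (r : ℝ) (k : ℕ) : Z.sp.dl r k = S.dl (Z.e * r) k := by
  unfold dl
  rw [sp_n]
  congr 1
  ring

theorem Sub_sp {K : ℕ → ℝ} : S.Sub K ↔ Z.sp.Sub K := by
  have h1 : (fun k => Real.logb 2 (K k + 2) / (Z.sp.F k).n) =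
      fun k => Z.e⁻¹ * (Real.logb 2 (K k + 2) / (S.F k).n) := by
    funext k
    rw [sp_n]
    have := (S.F k).pos
    have := Z.e_pos
    field_simp
  unfold Sp.Sub
  rw [h1]
  constructor
  · intro h
    refine ⟨h.1, ?_⟩
    have := h.2.const_mul Z.e⁻¹
    rwa [mul_zero] at this
  · intro h
    refine ⟨h.1, ?_⟩
    have h2 := h.2.const_mul Z.e
    rw [mul_zero] at h2
    refine h2.congr fun k => ?_
    rw [← mul_assoc, mul_inv_cancel₀ Z.e_pos.ne', one_mul]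

/-- the remainder of a variable -/
def fr {p : ℕ} (y : S.VV p) : Z.sp.VV p :=
  VV.of (S := Z.sp) (fun k (ω : (Z.l k).T.Ω) i => y.v k ((Z.l k).p.π ω) i / S.dl Z.c k -
    ⌊y.v k ((Z.l k).p.π ω) i / S.dl Z.c k⌋) (by
    refine ⟨1, Eventually.of_forall fun k ω _ i => ?_⟩
    have h1 := Int.floor_le (y.v k ((Z.l k).p.π ω) i / S.dl Z.c k)
    have h2 := Int.lt_floor_add_one (y.v k ((Z.l k).p.π ω) i / S.dl Z.c k)
    rw [abs_le]; constructor <;> linarith)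

theorem fr_v {p : ℕ} (y : S.VV p) (k : ℕ) (ω : (Z.l k).T.Ω) (i : Fin p) :
    (Z.fr y).v k ω i = y.v k ((Z.l k).p.π ω) i / S.dl Z.c k - ⌊y.v k ((Z.l k).p.π ω) i / S.dl Z.c k⌋ := rfl

theorem fr_eq {p : ℕ} (y : S.VV p) : Z.fr y = (Z.l.pj.vv y).zm Z.l.V Z.e Z.e_pos Z.c := by
  apply VV_ext
  funext k ω i
  have h1 : ((Z.l.pj.vv y).zm Z.l.V Z.e Z.e_pos Z.c).v k ω i =
    (Z.l.pj.vv y).v k ω i / Z.l.sp.dl Z.c k - ⌊(Z.l.pj.vv y).v k ω i / Z.l.sp.dl Z.c k⌋ := rfl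
  rw [h1, Pool.Agent.Helper3.LF.sp_dl]
  rfl

/-- a variable whose cell of level `c` is known -/
def Kn {p : ℕ} (y : S.VV p) : Prop := ∀ k ω ω', (Z.l k).T.μ ω ≠ 0 → (Z.l k).T.μ ω' ≠ 0 → (Z.l k).V ω ω' →
  (Z.l k).T.Z ω ω' → y.cellv Z.c k ((Z.l k).p.π ω) = y.cellv Z.c k ((Z.l k).p.π ω')

theorem fr_dg {p : ℕ} (y : S.VV p) (hy : Z.Kn y) (w : ℝ) :
    (Z.fr y).dg w = Z.l.upL Z.e Z.e_pos (y.dg (Z.c + Z.e * w)) := by
  have h0 : (Z.fr y).dg w = VV.dg (S := Z.sp) ((Z.l.pj.vv y).zm Z.l.V Z.e Z.e_pos Z.c) w :=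
    congrArg (fun z : Z.sp.VV p => z.dg w) (Z.fr_eq y)
  have h1 : ((Z.l.pj.vv y).zm Z.l.V Z.e Z.e_pos Z.c).dg w =
      chgL Z.l.V Z.e Z.e_pos ((Z.l.pj.vv y).dg (Z.c + Z.e * w)) :=
    VV.zm_dg Z.l.V Z.e Z.e_pos (Z.l.pj.vv y) Z.c w (Eventually.of_forall fun k ω ω' a b g =>
      (cellv_pj' Z.l y Z.c k ω).trans ((hy k ω ω' a b g.1 g.2).trans (cellv_pj' Z.l y Z.c k ω').symm))
  have h2 : chgL Z.l.V Z.e Z.e_pos ((Z.l.pj.vv y).dg (Z.c + Z.e * w)) =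
      Z.l.upL Z.e Z.e_pos (y.dg (Z.c + Z.e * w)) := by
    rw [← Z.l.pj.map_dg]
    rfl
  exact h0.trans (h1.trans h2)

/-- the corner of the window -/
def b : S.VV m := s.bc Z.c Z.h0

theorem t_kn : Z.Kn s.t := fun k ω ω' a b c d => (Z.cell k ω ω' a b c d).1

theorem b_kn : Z.Kn Z.b := fun k ω ω' a b c d => (Z.cell k ω ω' a b c d).2

/-- the directions -/
def x' : Z.sp.VV m := (Z.l.pj.vv s.x).chg Z.l.V Z.e Z.e_pos

theorem x'_v (k : ℕ) (ω : (Z.l k).T.Ω) : Z.x'.v k ω = s.x.v k ((Z.l k).p.π ω) := rfl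

theorem chg_up {p : ℕ} (y : S.VV p) (w : ℝ) :
    VV.dg (S := Z.sp) ((Z.l.pj.vv y).chg Z.l.V Z.e Z.e_pos) w = Z.l.upL Z.e Z.e_pos (y.dg (Z.e * w)) := by
  have h1 : ((Z.l.pj.vv y).chg Z.l.V Z.e Z.e_pos).dg w = chgL Z.l.V Z.e Z.e_pos ((Z.l.pj.vv y).dg (Z.e * w)) :=
    VV.chg_dg Z.l.V Z.e Z.e_pos (Z.l.pj.vv y) w
  have h2 : chgL Z.l.V Z.e Z.e_pos ((Z.l.pj.vv y).dg (Z.e * w)) = Z.l.upL Z.e Z.e_pos (y.dg (Z.e * w)) := by
    rw [← Z.l.pj.map_dg]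
    rfl
  exact h1.trans h2

theorem x'_dg (w : ℝ) : Z.x'.dg w = Z.l.upL Z.e Z.e_pos (s.x.dg (Z.e * w)) := Z.chg_up s.x w

/-! ### the map of lattices -/

/-- informations in the zoom -/
abbrev U (x : S.L) : Z.sp.L := Z.l.upL Z.e Z.e_pos x

theorem U_sup (x y : S.L) : Z.U (x ⊔ y) = Z.U x ⊔ Z.U y := Z.l.upL_sup _ _ x y

theorem U_mono {x y : S.L} (h : x ≤ y) : Z.U x ≤ Z.U y := Z.l.upL_mono _ _ h

theorem U_bot : Z.U ⊥ = ⊥ := Z.l.upL_bot _ _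

theorem H_U (x : S.L) : H (Z.U x) = H (up1 Z.l x) / Z.e := by
  have h1 : H (Z.U x) = ul (fun k => h ((Z.l k).p.map (rp x k)) (Z.l k).v / (S.F k).n) / Z.e :=
    Z.l.H_upL Z.e Z.e_pos x
  have h2 := Z.l.H_upL 1 one_pos x
  rw [div_one] at h2
  rw [h1, ← h2]

theorem h_U (x y : S.L) : h (Z.U x) (Z.U y) = h (up1 Z.l x) (up1 Z.l y) / Z.e := by
  have h1 : h (Z.U x) (Z.U y) = H (Z.U x ⊔ Z.U y) - H (Z.U y) := rfl
  have h2 : h (up1 Z.l x) (up1 Z.l y) = H (up1 Z.l x ⊔ up1 Z.l y) - H (up1 Z.l y) := rfl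
  rw [h1, h2, ← U_sup, ← up1_sup, H_U, H_U, sub_div]

/-- the coarse height is known -/
theorem U_t : Z.U (s.t.dg Z.c) = ⊥ := by
  have h1 := Z.fr_dg s.t Z.t_kn 0
  rw [mul_zero, add_zero, VV.dg_nonpos _ le_rfl] at h1
  exact h1.symm

theorem U_b : Z.U (Z.b.dg Z.c) = ⊥ := by
  have h1 := Z.fr_dg Z.b Z.b_kn 0
  rw [mul_zero, add_zero, VV.dg_nonpos _ le_rfl] at h1
  exact h1.symm

theorem up1_t : up1 Z.l (s.t.dg Z.c) = ⊥ := by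
  have h1 := Z.H_U (s.t.dg Z.c)
  rw [U_t, H_bot] at h1
  have h2 := Z.e_pos
  have h3 : H (up1 Z.l (s.t.dg Z.c)) = 0 := by
    have h4 : H (up1 Z.l (s.t.dg Z.c)) / Z.e * Z.e = H (up1 Z.l (s.t.dg Z.c)) := div_mul_cancel₀ _ h2.ne'
    rw [← h4, ← h1, zero_mul]
  apply le_antisymm _ bot_le
  rw [← h_eq_zero_iff, h_bot]
  exact h3

/-- the corner is a function of the line and the coarse height -/
theorem b_le {r : ℝ} : Z.b.dg r ≤ s.a.dg r ⊔ s.x.dg r ⊔ s.t.dg Z.c :=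
  (VV.pt_dg_le _ _ _ r).trans (sup_le_sup_left (VV.fl_dg_le _ _ _ _) _)

/-- THE ZOOM -/
def sys : Pool.Agent.Helper31.EC.Sys Z.sp m where
  a := Z.fr Z.b
  x := Z.x'
  t := Z.fr s.t
  ht := by
    rw [Z.fr_dg _ Z.t_kn, Z.fr_dg _ Z.b_kn, Z.x'_dg, mul_one, Z.c_add_e]
    apply le_antisymm
    · have h1 := (Z.fr s.t).H_dg_le zero_le_one
      rw [Z.fr_dg _ Z.t_kn, mul_one, Z.c_add_e] at h1
      have h2 := h_le_H (Z.U (s.t.dg 1)) (Z.U (Z.b.dg 1) ⊔ Z.U (s.x.dg Z.e))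
      simp only [Nat.cast_one, one_mul] at h1
      exact h2.trans h1
    · have h2 := Z.h_T
      have h3 : h (Z.U s.T) (Z.U (s.xi 1)) = 1 := by
        rw [h_U, h2]
        exact div_self Z.e_pos.ne'
      have h4 : Z.U (Z.b.dg 1) ⊔ Z.U (s.x.dg Z.e) ≤ Z.U (s.xi 1) := by
        apply sup_le
        · refine (Z.U_mono Z.b_le).trans ?_
          rw [U_sup, U_t, sup_bot_eq]
          exact le_rfl
        · apply Z.U_mono
          exact (s.x.dg_mono Z.e_le).trans le_sup_right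
      exact h3.symm.le.trans (h_anti h4)

theorem sys_t : Z.sys.t = Z.fr s.t := rfl
theorem sys_x : Z.sys.x = Z.x' := rfl
theorem sys_a : Z.sys.a = Z.fr Z.b := rfl

theorem sys_T : Z.sys.T = Z.U s.T := by
  have h1 := Z.fr_dg s.t Z.t_kn 1
  rw [mul_one, Z.c_add_e] at h1
  exact h1

/-- the point of the zoom -/
theorem P_v (k : ℕ) (ω : (Z.l k).T.Ω) (i : Fin m) :
    Z.sys.P.v k ω i = s.P.v k ((Z.l k).p.π ω) i / S.dl Z.c k - ⌊Z.b.v k ((Z.l k).p.π ω) i / S.dl Z.c k⌋ := by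
  have hd := (S.dl_pos Z.c k).ne'
  have e1 : Z.sys.P.v k ω i = (Z.fr Z.b).v k ω i + (Z.fr s.t).v k ω 0 * Z.x'.v k ω i := rfl
  have e2 : Z.b.v k ((Z.l k).p.π ω) i = s.a.v k ((Z.l k).p.π ω) i +
      ⌊s.t.v k ((Z.l k).p.π ω) 0 / S.dl Z.c k⌋ * S.dl Z.c k * s.x.v k ((Z.l k).p.π ω) i := rfl
  have e3 : s.P.v k ((Z.l k).p.π ω) i = s.a.v k ((Z.l k).p.π ω) i +
      s.t.v k ((Z.l k).p.π ω) 0 * s.x.v k ((Z.l k).p.π ω) i := rfl
  rw [e1, fr_v, fr_v, x'_v, e3]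
  have e4 : Z.b.v k ((Z.l k).p.π ω) i / S.dl Z.c k = s.a.v k ((Z.l k).p.π ω) i / S.dl Z.c k +
      ⌊s.t.v k ((Z.l k).p.π ω) 0 / S.dl Z.c k⌋ * s.x.v k ((Z.l k).p.π ω) i := by
    rw [e2]
    field_simp
  have e5 : (s.a.v k ((Z.l k).p.π ω) i + s.t.v k ((Z.l k).p.π ω) 0 * s.x.v k ((Z.l k).p.π ω) i) / S.dl Z.c k =
      s.a.v k ((Z.l k).p.π ω) i / S.dl Z.c k +
      s.t.v k ((Z.l k).p.π ω) 0 / S.dl Z.c k * s.x.v k ((Z.l k).p.π ω) i := by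
    field_simp
  rw [e5]
  linear_combination e4

theorem P_dg (w : ℝ) : Z.sys.P.dg w = Z.U (s.P.dg (Z.c + Z.e * w)) := by
  have e0 : VV.dg (S := Z.sp) ((Z.l.pj.vv s.P).chg Z.l.V Z.e Z.e_pos) (Z.c / Z.e + w) =
      Z.U (s.P.dg (Z.c + Z.e * w)) := by
    have h1 : Z.e * (Z.c / Z.e + w) = Z.c + Z.e * w := by
      have := Z.e_pos.ne'
      field_simp
    rw [Z.chg_up, h1]
  rw [← e0]
  have hd : ∀ k, Z.sp.dl (Z.c / Z.e + w) k = S.dl Z.c k * Z.sp.dl w k := by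
    intro k
    rw [sp_dl', sp_dl', ← dl_add]
    congr 1
    have := Z.e_pos.ne'
    field_simp
  have key : ∀ k, ∀ ω ω' : (Z.l k).T.Ω, (Z.l k).T.μ ω ≠ 0 → (Z.l k).T.μ ω' ≠ 0 → (Z.sp.F k).Z ω ω' → ∀ i,
      |s.P.v k ((Z.l k).p.π ω) i - s.P.v k ((Z.l k).p.π ω') i| =
        S.dl Z.c k * |Z.sys.P.v k ω i - Z.sys.P.v k ω' i| := by
    intro k ω ω' a b g i
    have h1 : ⌊Z.b.v k ((Z.l k).p.π ω) i / S.dl Z.c k⌋ = ⌊Z.b.v k ((Z.l k).p.π ω') i / S.dl Z.c k⌋ :=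
      congrFun (Z.b_kn k ω ω' a b g.1 g.2) i
    rw [P_v, P_v, h1]
    have h2 : s.P.v k ((Z.l k).p.π ω) i / S.dl Z.c k - ⌊Z.b.v k ((Z.l k).p.π ω') i / S.dl Z.c k⌋ -
        (s.P.v k ((Z.l k).p.π ω') i / S.dl Z.c k - ⌊Z.b.v k ((Z.l k).p.π ω') i / S.dl Z.c k⌋) =
        (s.P.v k ((Z.l k).p.π ω) i - s.P.v k ((Z.l k).p.π ω') i) / S.dl Z.c k := by ring
    rw [h2, abs_div, abs_of_pos (S.dl_pos Z.c k), mul_div_cancel₀ _ (S.dl_pos Z.c k).ne']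
  apply le_antisymm
  · apply VV.dg_le_dg _ _ _ _ (fun _ _ => True) Typ_true (fun _ => 1) (Z.sp.Sub_const zero_le_one)
    refine Eventually.of_forall fun k ω ω' a b _ _ g g' i => ?_
    have h1 := key k ω ω' a b g i
    have h2 : |s.P.v k ((Z.l k).p.π ω) i - s.P.v k ((Z.l k).p.π ω') i| ≤ Z.sp.dl (Z.c / Z.e + w) k := g' i
    rw [h1, hd] at h2
    rw [one_mul]
    exact le_of_mul_le_mul_left h2 (S.dl_pos Z.c k)
  · apply VV.dg_le_dg _ _ _ _ (fun _ _ => True) Typ_true (fun _ => 1) (Z.sp.Sub_const zero_le_one)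
    refine Eventually.of_forall fun k ω ω' a b _ _ g g' i => ?_
    have h1 := key k ω ω' a b g i
    rw [one_mul]
    have h3 : Z.sp.dl (Z.c / Z.e + w) k = S.dl Z.c k * Z.sp.dl w k := hd k
    show |s.P.v k ((Z.l k).p.π ω) i - s.P.v k ((Z.l k).p.π ω') i| ≤ (Z.sp).dl (Z.c / Z.e + w) k
    rw [h1, h3]
    exact mul_le_mul_of_nonneg_left (g' i) (S.dl_pos Z.c k).le

theorem P_dg_one : Z.sys.P.dg 1 = Z.U (s.P.dg 1) := by
  rw [P_dg, mul_one, Z.c_add_e]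

/-- entropy of the points of the zoom -/
theorem h_P : h (Z.sys.P.dg 1) Z.sys.T = h (up1 Z.l (s.P.dg 1)) (up1 Z.l s.T) / Z.e := by
  rw [P_dg_one, sys_T, h_U]

/-- the corner -/
def oo (k : ℕ) (ω : (Z.l k).T.Ω) : Fin (m + 1) → ℝ :=
  Fin.cons (⌊s.t.v k ((Z.l k).p.π ω) 0 / S.dl Z.c k⌋ * S.dl Z.c k) fun i =>
    ⌊Z.b.v k ((Z.l k).p.π ω) i / S.dl Z.c k⌋ * S.dl Z.c k

theorem oo_meas (k : ℕ) (ω ω' : (Z.l k).T.Ω) (h : (Z.l k).T.μ ω ≠ 0) (h' : (Z.l k).T.μ ω' ≠ 0)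
    (hV : (Z.l k).V ω ω') (hZ : (Z.l k).T.Z ω ω') : Z.oo k ω = Z.oo k ω' := by
  have h1 := Z.t_kn k ω ω' h h' hV hZ
  have h2 := Z.b_kn k ω ω' h h' hV hZ
  have e1 : ⌊s.t.v k ((Z.l k).p.π ω) 0 / S.dl Z.c k⌋ = ⌊s.t.v k ((Z.l k).p.π ω') 0 / S.dl Z.c k⌋ := congrFun h1 0
  have e2 : ∀ i, ⌊Z.b.v k ((Z.l k).p.π ω) i / S.dl Z.c k⌋ = ⌊Z.b.v k ((Z.l k).p.π ω') i / S.dl Z.c k⌋ :=
    fun i => congrFun h2 i
  unfold oo
  rw [e1]
  congr 1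
  funext i
  rw [e2]

/-- the points of the system and of the zoom -/
theorem ptf_aff (k : ℕ) (ω : (Z.l k).T.Ω) :
    ptf s k ((Z.l k).p.π ω) = aff (Z.oo k ω) (S.dl Z.c k) (ptf Z.sys k ω) := by
  have hd := (S.dl_pos Z.c k).ne'
  funext j
  refine Fin.cases ?_ (fun i => ?_) j
  · show s.t.v k ((Z.l k).p.π ω) 0 = ⌊s.t.v k ((Z.l k).p.π ω) 0 / S.dl Z.c k⌋ * S.dl Z.c k +
      S.dl Z.c k * (s.t.v k ((Z.l k).p.π ω) 0 / S.dl Z.c k - ⌊s.t.v k ((Z.l k).p.π ω) 0 / S.dl Z.c k⌋)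
    field_simp
    ring
  · show s.P.v k ((Z.l k).p.π ω) i = ⌊Z.b.v k ((Z.l k).p.π ω) i / S.dl Z.c k⌋ * S.dl Z.c k +
      S.dl Z.c k * Z.sys.P.v k ω i
    rw [P_v]
    field_simp
    ring

theorem aff_inv (o : Fin (m + 1) → ℝ) (δ : ℝ) (hδ : δ ≠ 0) (p : Fin (m + 1) → ℝ) :
    aff (fun i => -(δ⁻¹ * o i)) δ⁻¹ (aff o δ p) = p := by
  funext i
  unfold aff
  field_simp
  ring

theorem ptf_aff' (k : ℕ) (ω : (Z.l k).T.Ω) :
    aff (fun i => -((S.dl Z.c k)⁻¹ * Z.oo k ω i)) (S.dl Z.c k)⁻¹ (ptf s k ((Z.l k).p.π ω)) = ptf Z.sys k ω := by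
  rw [ptf_aff, aff_inv _ _ (S.dl_pos Z.c k).ne']

theorem dl_eq (k : ℕ) : (S.dl Z.c k)⁻¹ * S.dl 1 k = Z.sp.dl 1 k := by
  have h1 : S.dl 1 k = S.dl Z.c k * S.dl Z.e k := by rw [← dl_add, Z.c_add_e]
  rw [h1, sp_dl', mul_one, ← mul_assoc, inv_mul_cancel₀ (S.dl_pos Z.c k).ne', one_mul]

theorem dl_eq' (k : ℕ) : S.dl Z.c k * Z.sp.dl 1 k = S.dl 1 k := by
  rw [← dl_eq, ← mul_assoc, mul_inv_cancel₀ (S.dl_pos Z.c k).ne', one_mul]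

/-! ### labels of the zoom -/

theorem lA_le : lA Z.sys 0 ≤ Z.U (lA s Z.c) := by
  unfold lA
  rw [U_sup]
  apply sup_le
  · apply sup_le
    · show (Z.fr Z.b).dg 1 ≤ _
      rw [Z.fr_dg _ Z.b_kn, mul_one, Z.c_add_e]
      refine (Z.U_mono Z.b_le).trans ?_
      rw [U_sup]
      exact le_rfl
    · show Z.x'.dg 1 ≤ _
      rw [x'_dg, mul_one]
      refine le_trans (Z.U_mono ?_) le_sup_left
      exact (s.x.dg_mono Z.e_le).trans le_sup_right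
  · show (Z.fr s.t).dg 0 ≤ _
    rw [VV.dg_nonpos _ le_rfl]
    exact bot_le

theorem lB_eq : lB Z.sys = Z.U (lB s) := by
  unfold lB
  rw [U_sup, P_dg_one, sys_T]

end ZT

end

end Pool.Agent.Helper3.UF
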